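import Pool.Agent.Q74.PD.Stm

/-! # Project PD (helper74): parity vectors of the `3x+d` maps and harmonic sums over classes -/

set_option autoImplicit false

namespace Pool.Agent.Q237.PD

open Finset
open Pool.Agent.H499R2.ND Pool.Agent.H320R2.PD Pool.Agent.Y856.PD Pool.Agent.Q74.PD

/-- number of odd terms among the first `n` -/
def oc (d x : ℤ) : ℕ → ℕ
  | 0 => 0
  | n + 1 => oc d x n + if ((Td d)^[n] x) % 2 = 0 then 0 else 1

/-- the additive part -/
def cc (d x : ℤ) : ℕ → ℕ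
  | 0 => 0
  | n + 1 => if ((Td d)^[n] x) % 2 = 0 then cc d x n else 3 * cc d x n + 2 ^ n

theorem two_Td {d : ℤ} (hd : Odd d) (x : ℤ) : 2 * Td d x = if x % 2 = 0 then x else 3 * x + d := by
  obtain ⟨t, rfl⟩ := hd
  unfold Td
  split_ifs with h <;> omega

theorem ident {d : ℤ} (hd : Odd d) (x : ℤ) (n : ℕ) :
    2 ^ n * (Td d)^[n] x = 3 ^ oc d x n * x + d * cc d x n := by
  induction n with
  | zero => simp [oc, cc]
  | succ n ih =>
    rw [Function.iterate_succ_apply', pow_succ, mul_assoc, two_Td hd, oc, cc]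
    split_ifs with h
    · rw [add_zero, ih]
    · rw [pow_succ (3 : ℤ)]
      push_cast
      linear_combination 3 * ih

theorem cc_le (d x : ℤ) (n : ℕ) : cc d x n + 2 ^ n ≤ 3 ^ n := by
  induction n with
  | zero => simp [cc]
  | succ n ih =>
    rw [cc, pow_succ, pow_succ]
    have h1 : 0 < 2 ^ n := by positivity
    split_ifs <;> omega

/-- congruent integers have congruent iterates -/
theorem iter_congr {d : ℤ} (hd : Odd d) (n : ℕ) : ∀ (s : ℕ) (x y : ℤ), (2 : ℤ) ^ (n + s) ∣ x - y →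
    (2 : ℤ) ^ n ∣ (Td d)^[s] x - (Td d)^[s] y := by
  intro s
  induction s with
  | zero => intro x y h; simpa using h
  | succ s ih =>
    intro x y h
    rw [Function.iterate_succ_apply, Function.iterate_succ_apply]
    apply ih
    have h1 := two_Td hd x
    have h2 := two_Td hd y
    rw [← add_assoc, pow_succ'] at h
    have h3 : (2 : ℤ) ∣ x - y := (dvd_mul_right _ _).trans h
    have h4 : (2 : ℤ) * 2 ^ (n + s) ∣ 2 * (Td d x - Td d y) := by
      have e : 2 * (Td d x - Td d y) = (x - y) * (if x % 2 = 0 then 1 else 3) := by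
        rw [mul_sub, h1, h2]
        by_cases hx : x % 2 = 0
        · rw [if_pos hx, if_pos hx, if_pos (by omega)]
          ring
        · rw [if_neg hx, if_neg hx, if_neg (by omega)]
          ring
      rw [e]
      exact Dvd.dvd.mul_right h _
    exact (mul_dvd_mul_iff_left (by norm_num)).1 h4

theorem parity_congr {d : ℤ} (hd : Odd d) {n s : ℕ} (hs : s < n) {x y : ℤ} (h : (2 : ℤ) ^ n ∣ x - y) :
    ((Td d)^[s] x) % 2 = ((Td d)^[s] y) % 2 := by
  have h1 := iter_congr hd 1 s x y ((pow_dvd_pow 2 (by omega)).trans h)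
  rw [pow_one] at h1
  omega

theorem oc_congr {d : ℤ} (hd : Odd d) {n : ℕ} {x y : ℤ} (h : (2 : ℤ) ^ n ∣ x - y) :
    ∀ s ≤ n, oc d x s = oc d y s := by
  intro s
  induction s with
  | zero => intro _; rfl
  | succ s ih =>
    intro hs
    rw [oc, oc, ih (by omega), parity_congr hd hs h]

theorem cc_congr {d : ℤ} (hd : Odd d) {n : ℕ} {x y : ℤ} (h : (2 : ℤ) ^ n ∣ x - y) :
    ∀ s ≤ n, cc d x s = cc d y s := by
  intro s
  induction s with
  | zero => intro _; rfl
  | succ s ih =>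
    intro hs
    rw [cc, cc, ih (by omega), parity_congr hd hs h]

/-! ## Sums over the classes modulo `2^n` -/

/-- product of the weights of the parities -/
noncomputable def W (d : ℤ) (g : ℕ → ℤ → ℝ) (n : ℕ) (x : ℤ) : ℝ :=
  ∏ s ∈ range n, g s (((Td d)^[s] x) % 2)

theorem W_congr {d : ℤ} (hd : Odd d) (g : ℕ → ℤ → ℝ) {n : ℕ} {x y : ℤ} (h : (2 : ℤ) ^ n ∣ x - y) :
    W d g n x = W d g n y := by
  unfold W
  refine prod_congr rfl fun s hs => ?_
  rw [parity_congr hd (mem_range.1 hs) h]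

theorem W_succ (d : ℤ) (g : ℕ → ℤ → ℝ) (n : ℕ) (x : ℤ) :
    W d g (n + 1) x = g 0 (x % 2) * W d (fun s => g (s + 1)) n (Td d x) := by
  unfold W
  rw [prod_range_succ']
  simp only [Function.iterate_succ_apply, Function.iterate_zero, id]
  rw [mul_comm]

/-- a periodic function has the same sum along `3 i + c` -/
theorem sum_affine (n : ℕ) (c : ℤ) (f : ℤ → ℝ) (hf : ∀ x y : ℤ, (2 : ℤ) ^ n ∣ x - y → f x = f y) :
    ∑ i ∈ range (2 ^ n), f (3 * (i : ℤ) + c) = ∑ i ∈ range (2 ^ n), f i := by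
  have hpos : (0 : ℤ) < 2 ^ n := by positivity
  have hmem : ∀ a : ℕ, ((3 * (a : ℤ) + c) % 2 ^ n).toNat ∈ range (2 ^ n) := by
    intro a
    rw [mem_range]
    have h1 := Int.emod_nonneg (3 * (a : ℤ) + c) hpos.ne'
    have h2 := Int.emod_lt_of_pos (3 * (a : ℤ) + c) hpos
    zify
    rw [Int.toNat_of_nonneg h1]
    exact h2
  have hcast : ∀ a : ℕ, ((((3 * (a : ℤ) + c) % 2 ^ n).toNat : ℕ) : ℤ) = (3 * (a : ℤ) + c) % 2 ^ n :=
    fun a => Int.toNat_of_nonneg (Int.emod_nonneg _ hpos.ne')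
  have hinj : ∀ a ∈ range (2 ^ n), ∀ b ∈ range (2 ^ n),
      ((3 * (a : ℤ) + c) % 2 ^ n).toNat = ((3 * (b : ℤ) + c) % 2 ^ n).toNat → a = b := by
    intro a ha b hb hab
    rw [mem_range] at ha hb
    have h1 := congrArg (fun t : ℕ => (t : ℤ)) hab
    simp only [hcast] at h1
    have h2 : (2 : ℤ) ^ n ∣ 3 * ((b : ℤ) - a) := by
      have h3 : (3 * (a : ℤ) + c) ≡ (3 * (b : ℤ) + c) [ZMOD 2 ^ n] := h1
      have h4 := h3.dvd
      rwa [show 3 * (b : ℤ) + c - (3 * (a : ℤ) + c) = 3 * ((b : ℤ) - a) by ring] at h4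
    have h5 : IsCoprime ((2 : ℤ) ^ n) 3 := by
      refine IsCoprime.pow_left ?_
      exact ⟨-1, 1, by norm_num⟩
    have h6 := h5.dvd_of_dvd_mul_left h2
    obtain ⟨k, hk⟩ := h6
    have ha' : (a : ℤ) < 2 ^ n := by exact_mod_cast ha
    have hb' : (b : ℤ) < 2 ^ n := by exact_mod_cast hb
    have hk0 : k = 0 := by
      by_contra hne
      rcases lt_or_gt_of_ne hne with h | h
      · have : (2 : ℤ) ^ n * k ≤ -(2 ^ n) := by nlinarith
        omega
      · have : (2 : ℤ) ^ n ≤ 2 ^ n * k := by nlinarith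
        omega
    rw [hk0, mul_zero] at hk
    omega
  have himg : (range (2 ^ n)).image (fun a : ℕ => ((3 * (a : ℤ) + c) % 2 ^ n).toNat) = range (2 ^ n) := by
    refine eq_of_subset_of_card_le ?_ ?_
    · intro b hb
      rw [mem_image] at hb
      obtain ⟨a, _, rfl⟩ := hb
      exact hmem a
    · rw [card_image_of_injOn fun a ha b hb h => hinj a (mem_coe.1 ha) b (mem_coe.1 hb) h]
  conv_rhs => rw [← himg]
  rw [sum_image fun a ha b hb h => hinj a ha b hb h]
  refine sum_congr rfl fun a _ => ?_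
  apply hf
  rw [hcast]
  exact Int.dvd_self_sub_emod

theorem sum_range_two_mul {M : Type*} [AddCommMonoid M] (f : ℕ → M) (m : ℕ) :
    ∑ i ∈ range (2 * m), f i = ∑ i ∈ range m, (f (2 * i) + f (2 * i + 1)) := by
  induction m with
  | zero => simp
  | succ m ih =>
    rw [sum_range_succ, ← ih, show 2 * (m + 1) = 2 * m + 1 + 1 by ring, sum_range_succ,
      sum_range_succ, add_assoc]

/-- the sum of the weights over the classes -/
theorem W_sum {d : ℤ} (hd : Odd d) (n : ℕ) : ∀ g : ℕ → ℤ → ℝ,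
    ∑ r ∈ range (2 ^ n), W d g n r = ∏ s ∈ range n, (g s 0 + g s 1) := by
  induction n with
  | zero =>
    intro g
    simp [W]
  | succ n ih =>
    intro g
    obtain ⟨t, ht⟩ := hd
    rw [pow_succ', sum_range_two_mul, prod_range_succ']
    have h : ∀ i ∈ range (2 ^ n), W d g (n + 1) ((2 * i : ℕ) : ℤ) + W d g (n + 1) ((2 * i + 1 : ℕ) : ℤ)
        = g 0 0 * W d (fun s => g (s + 1)) n i +
          g 0 1 * W d (fun s => g (s + 1)) n (3 * (i : ℤ) + (t + 2)) := by
      intro i _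
      rw [W_succ, W_succ]
      have e1 : Td d ((2 * i : ℕ) : ℤ) = i := by
        unfold Td
        push_cast
        rw [if_pos (by omega)]
        omega
      have e2 : Td d ((2 * i + 1 : ℕ) : ℤ) = 3 * (i : ℤ) + (t + 2) := by
        unfold Td
        push_cast
        rw [if_neg (by omega)]
        omega
      have e3 : ((2 * i : ℕ) : ℤ) % 2 = 0 := by push_cast; omega
      have e4 : ((2 * i + 1 : ℕ) : ℤ) % 2 = 1 := by push_cast; omega
      rw [e1, e2, e3, e4]
    rw [sum_congr rfl h, sum_add_distrib, ← mul_sum, ← mul_sum,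
      sum_affine n (t + 2) (W d (fun s => g (s + 1)) n) (fun x y hxy => W_congr ⟨t, ht⟩ _ hxy), ih]
    ring

/-! ## Harmonic sums in a class -/

theorem harm (q : ℕ) (hq : 1 ≤ q) (r : ℤ) (α : ℝ) (hα : 0 < α) (S : Finset ℤ) :
    (∀ x ∈ S, (q : ℤ) ∣ x - r) → (∀ x ∈ S, α ≤ (x : ℝ)) → ∀ M : ℝ, α ≤ M →
      (∀ x ∈ S, (x : ℝ) ≤ M) → ∑ x ∈ S, 1 / (x : ℝ) ≤ 1 / α + (Real.log M - Real.log α) / q := by
  have hqR : (1 : ℝ) ≤ q := by exact_mod_cast hq
  induction S using Finset.induction_on_max with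
  | empty =>
    intro _ _ M hM _
    rw [sum_empty]
    have := Real.log_le_log hα hM
    have h2 : 0 ≤ (Real.log M - Real.log α) / q := div_nonneg (by linarith) (by linarith)
    have h3 : 0 < 1 / α := by positivity
    linarith
  | insert a s ha ih =>
    intro h1 h2 M hM h3
    have hnot : a ∉ s := fun h => lt_irrefl _ (ha a h)
    rw [sum_insert hnot]
    have haM : (a : ℝ) ≤ M := h3 a (mem_insert_self _ _)
    have haα : α ≤ (a : ℝ) := h2 a (mem_insert_self _ _)
    have ha0 : 0 < (a : ℝ) := lt_of_lt_of_le hα haα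
    have hlogM : Real.log a ≤ Real.log M := Real.log_le_log ha0 haM
    rcases s.eq_empty_or_nonempty with rfl | hne
    · rw [sum_empty, add_zero]
      have h4 : 1 / (a : ℝ) ≤ 1 / α := one_div_le_one_div_of_le hα haα
      have h5 : 0 ≤ (Real.log M - Real.log α) / q :=
        div_nonneg (by linarith [Real.log_le_log hα haα]) (by linarith)
      linarith
    · have hstep : ∀ x ∈ s, x ≤ a - q := by
        intro x hx
        have h4 := h1 x (mem_insert_of_mem hx)
        have h5 := h1 a (mem_insert_self _ _)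
        have h6 : (q : ℤ) ∣ a - x := by
          have := dvd_sub h5 h4
          rwa [show a - r - (x - r) = a - x by ring] at this
        have h7 := ha x hx
        have h8 := Int.le_of_dvd (by omega) h6
        omega
      obtain ⟨y, hy⟩ := hne
      have h4 : α ≤ (a : ℝ) - q := by
        have h5 := hstep y hy
        have h6 : (y : ℝ) ≤ (a : ℝ) - q := by exact_mod_cast h5
        linarith [h2 y (mem_insert_of_mem hy)]
      have h5 := ih (fun x hx => h1 x (mem_insert_of_mem hx)) (fun x hx => h2 x (mem_insert_of_mem hx))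
        ((a : ℝ) - q) h4 (fun x hx => by exact_mod_cast hstep x hx)
      have h6 : (q : ℝ) / a ≤ Real.log a - Real.log ((a : ℝ) - q) := by
        have h7 : 0 < (a : ℝ) - q := lt_of_lt_of_le hα h4
        have h8 := Real.log_le_sub_one_of_pos (div_pos h7 ha0)
        rw [Real.log_div h7.ne' ha0.ne'] at h8
        have h9 : ((a : ℝ) - q) / a - 1 = -(q / a) := by
          field_simp
          ring
        rw [h9] at h8
        linarith
      have h7 : 1 / (a : ℝ) ≤ (Real.log a - Real.log ((a : ℝ) - q)) / q := by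
        rw [le_div_iff₀ (by linarith)]
        rw [one_div, inv_mul_eq_div]
        exact h6
      have h8 : (Real.log M - Real.log α) / q =
          (Real.log a - Real.log ((a : ℝ) - q)) / q + (Real.log ((a : ℝ) - q) - Real.log α) / q +
            (Real.log M - Real.log a) / q := by ring
      have h9 : 0 ≤ (Real.log M - Real.log a) / q := div_nonneg (by linarith) (by linarith)
      rw [h8]
      linarith

theorem log_ratio {κ : ℝ} (h0 : 0 ≤ κ) (h1 : κ ≤ 1 / 2) :
    Real.log (1 + κ) - Real.log (1 - κ) ≤ 4 * κ := by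
  rw [← Real.log_div (by linarith) (by linarith)]
  have h2 : (1 + κ) / (1 - κ) ≤ 1 + 4 * κ := by
    rw [div_le_iff₀ (by linarith)]
    nlinarith
  have h3 : 0 < (1 + κ) / (1 - κ) := div_pos (by linarith) (by linarith)
  have h4 := Real.log_le_log h3 h2
  have h5 := Real.log_le_sub_one_of_pos (show 0 < 1 + 4 * κ by linarith)
  linarith

/-- the harmonic mass of the `x` of one class modulo `2^n` with a visit of `[A, 2A)` at the time `i ≤ n` -/
theorem classmass {d : ℤ} (hd : Odd d) {A : ℝ} (hA : 1 ≤ A) {i n : ℕ} (hin : i ≤ n) (r : ℤ) {κ : ℝ}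
    (hκ : |(d : ℝ)| * 3 ^ i ≤ κ * (2 ^ i * A)) (hκ2 : κ ≤ 1 / 2) {U : ℝ} (hU : 0 < U) (S : Finset ℤ)
    (hSU : ∀ x ∈ S, U ≤ (x : ℝ)) (hSr : ∀ x ∈ S, (2 : ℤ) ^ n ∣ x - r)
    (hS : ∀ x ∈ S, A ≤ (((Td d)^[i] x : ℤ) : ℝ) ∧ (((Td d)^[i] x : ℤ) : ℝ) < 2 * A) :
    ∑ x ∈ S, 1 / (x : ℝ) ≤ 1 / U + (Real.log 2 + 4 * κ) / 2 ^ n := by
  have h2A : 0 < (2 : ℝ) ^ i * A := by positivity
  have hκ0 : 0 ≤ κ := by
    by_contra h
    push Not at h
    have h1 : κ * (2 ^ i * A) < 0 := mul_neg_of_neg_of_pos h h2A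
    have h2 : 0 ≤ |(d : ℝ)| * 3 ^ i := by positivity
    linarith
  set o := oc d r i with ho
  set c := cc d r i with hc
  have hcle : (c : ℝ) ≤ 3 ^ i := by
    have := cc_le d r i
    have h2 : 0 < 2 ^ i := by positivity
    have h1 : c ≤ 3 ^ i := by omega
    exact_mod_cast h1
  have hdc : |(d : ℝ) * c| ≤ κ * (2 ^ i * A) := by
    rw [abs_mul, abs_of_nonneg (show (0 : ℝ) ≤ (c : ℝ) from Nat.cast_nonneg c)]
    exact (mul_le_mul_of_nonneg_left hcle (abs_nonneg _)).trans hκ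
  have h3o : (0 : ℝ) < 3 ^ o := by positivity
  -- the interval
  have hx : ∀ x ∈ S, 2 ^ i * A * (1 - κ) / 3 ^ o ≤ (x : ℝ) ∧ (x : ℝ) ≤ 2 ^ i * A * (2 * (1 + κ)) / 3 ^ o := by
    intro x hxS
    have h1 := ident hd x i
    rw [oc_congr hd (hSr x hxS) i hin, cc_congr hd (hSr x hxS) i hin] at h1
    have h2 : (2 : ℝ) ^ i * (((Td d)^[i] x : ℤ) : ℝ) = 3 ^ o * x + d * c := by exact_mod_cast h1
    obtain ⟨h3, h4⟩ := hS x hxS
    have h5 := abs_le.1 hdc
    have h6 : (2 : ℝ) ^ i * A ≤ 2 ^ i * (((Td d)^[i] x : ℤ) : ℝ) :=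
      mul_le_mul_of_nonneg_left h3 (by positivity)
    have h7 : (2 : ℝ) ^ i * (((Td d)^[i] x : ℤ) : ℝ) ≤ 2 ^ i * (2 * A) :=
      mul_le_mul_of_nonneg_left h4.le (by positivity)
    constructor
    · rw [div_le_iff₀ h3o]
      linarith [h5.2]
    · rw [le_div_iff₀ h3o]
      have : 0 ≤ κ * (2 ^ i * A) := by positivity
      linarith [h5.1]
  set a₁ : ℝ := 2 ^ i * A * (1 - κ) / 3 ^ o with ha₁
  set b₁ : ℝ := 2 ^ i * A * (2 * (1 + κ)) / 3 ^ o with hb₁
  have ha₁0 : 0 < a₁ := by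
    rw [ha₁]
    have : 0 < 1 - κ := by linarith
    positivity
  have hb₁0 : 0 < b₁ := by
    rw [hb₁]
    positivity
  have hlog : Real.log b₁ - Real.log a₁ ≤ Real.log 2 + 4 * κ := by
    have h1 : 0 < 1 - κ := by linarith
    rw [ha₁, hb₁, Real.log_div (by positivity) (by positivity), Real.log_div (by positivity) (by positivity),
      Real.log_mul (by positivity) (by positivity), Real.log_mul (by positivity) (by positivity),
      Real.log_mul (by norm_num) (by positivity), Real.log_mul (by positivity) h1.ne',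
      Real.log_mul (by positivity) (by positivity)]
    have := log_ratio hκ0 hκ2
    linarith
  have hmax : 0 < max U a₁ := lt_of_lt_of_le hU (le_max_left _ _)
  rcases S.eq_empty_or_nonempty with rfl | ⟨y, hy⟩
  · rw [sum_empty]
    have h1 : 0 ≤ Real.log 2 := Real.log_nonneg (by norm_num)
    positivity
  · have hMb : max U a₁ ≤ b₁ := by
      refine max_le ?_ ?_
      · exact (hSU y hy).trans (hx y hy).2
      · exact (hx y hy).1.trans (hx y hy).2
    have h1 := harm (2 ^ n) Nat.one_le_two_pow r (max U a₁) hmax S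
      (fun x hxS => by
        have := hSr x hxS
        push_cast
        exact this)
      (fun x hxS => max_le (hSU x hxS) (hx x hxS).1) b₁ hMb (fun x hxS => (hx x hxS).2)
    have h2 : 1 / max U a₁ ≤ 1 / U := one_div_le_one_div_of_le hU (le_max_left _ _)
    have h3 : Real.log a₁ ≤ Real.log (max U a₁) := Real.log_le_log ha₁0 (le_max_right _ _)
    have h4 : (Real.log b₁ - Real.log (max U a₁)) / ((2 ^ n : ℕ) : ℝ) ≤ (Real.log 2 + 4 * κ) / 2 ^ n := by
      rw [Nat.cast_pow, Nat.cast_two]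
      exact div_le_div_of_nonneg_right (by linarith) (by positivity)
    linarith

open Classical in
/-- the weighted harmonic mass of the visits of `[A, 2A)` at the time `i ≤ n` -/
theorem mass_le {d : ℤ} (hd : Odd d) {A : ℝ} (hA : 1 ≤ A) {i n : ℕ} (hin : i ≤ n) {κ : ℝ}
    (hκ : |(d : ℝ)| * 3 ^ i ≤ κ * (2 ^ i * A)) (hκ2 : κ ≤ 1 / 2) {U : ℝ} (hU : 0 < U) (S : Finset ℤ)
    (hSU : ∀ x ∈ S, U ≤ (x : ℝ))
    (hS : ∀ x ∈ S, A ≤ (((Td d)^[i] x : ℤ) : ℝ) ∧ (((Td d)^[i] x : ℤ) : ℝ) < 2 * A)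
    (g : ℕ → ℤ → ℝ) (hg : ∀ s b, 0 ≤ g s b) :
    ∑ x ∈ S, 1 / (x : ℝ) * W d g n x ≤
      (1 / U + (Real.log 2 + 4 * κ) / 2 ^ n) * ∏ s ∈ range n, (g s 0 + g s 1) := by
  have hpos : (0 : ℤ) < 2 ^ n := by positivity
  have hW0 : ∀ x, 0 ≤ W d g n x := fun x => prod_nonneg fun s _ => hg _ _
  have hmem : ∀ x ∈ S, (x % 2 ^ n).toNat ∈ range (2 ^ n) := by
    intro x _
    rw [mem_range]
    have h1 := Int.emod_nonneg x hpos.ne'
    have h2 := Int.emod_lt_of_pos x hpos
    zify
    rw [Int.toNat_of_nonneg h1]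
    exact h2
  rw [← sum_fiberwise_of_maps_to hmem, ← W_sum hd, mul_sum]
  refine sum_le_sum fun r hr => ?_
  have hdvd : ∀ x ∈ S.filter (fun x => (x % 2 ^ n).toNat = r), (2 : ℤ) ^ n ∣ x - r := by
    intro x hx
    rw [mem_filter] at hx
    rw [← hx.2, Int.toNat_of_nonneg (Int.emod_nonneg x hpos.ne')]
    exact Int.dvd_self_sub_emod
  have h1 : ∑ x ∈ S.filter (fun x => (x % 2 ^ n).toNat = r), 1 / (x : ℝ) * W d g n x =
      (∑ x ∈ S.filter (fun x => (x % 2 ^ n).toNat = r), 1 / (x : ℝ)) * W d g n r := by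
    rw [sum_mul]
    refine sum_congr rfl fun x hx => ?_
    rw [W_congr hd g (hdvd x hx)]
  rw [h1]
  refine mul_le_mul_of_nonneg_right ?_ (hW0 _)
  exact classmass hd hA hin r hκ hκ2 hU _ (fun x hx => hSU x (mem_of_mem_filter x hx)) hdvd
    (fun x hx => hS x (mem_of_mem_filter x hx))

end Pool.Agent.Q237.PD
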