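import Pool.Agent.Q237.PD.Mas

/-! # Project PD (helper74): the law of large numbers over the words -/

set_option autoImplicit false

namespace Pool.Agent.Q237.PD

open Finset Filter Topology
open Pool.Agent.H499R2.ND Pool.Agent.H320R2.PD Pool.Agent.Y856.PD Pool.Agent.Q74.PD

theorem valid_append (d a : ℤ) {n : ℕ} {u : List ℕ} (hu : u.length = n) (v : List ℕ) :
    (3 : ℤ) ^ n ∣ 2 ^ (u ++ v).sum * a - d * Wo (u ++ v) ↔ (3 : ℤ) ^ n ∣ 2 ^ u.sum * a - d * Wo u := by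
  have h1 : (2 : ℤ) ^ (u ++ v).sum * a - d * Wo (u ++ v) =
      2 ^ v.sum * (2 ^ u.sum * a - d * Wo u) - 3 ^ n * (d * Wo v) := by
    rw [Wo_append, List.sum_append, hu]
    push_cast
    ring
  rw [h1, dvd_sub_left (Dvd.intro _ rfl)]
  have h2 : IsCoprime ((3 : ℤ) ^ n) (2 ^ v.sum) := by
    refine IsCoprime.pow ?_
    exact ⟨1, -1, by norm_num⟩
  exact ⟨fun h => h2.dvd_of_dvd_mul_left h, fun h => Dvd.dvd.mul_left h _⟩

open Classical in
theorem split (d : ℤ) (cap n m : ℕ) (a : ℤ) :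
    (3 : ℝ) ^ n * ∑ w ∈ FW cap (n + m), (if (3 : ℤ) ^ n ∣ 2 ^ w.sum * a - d * Wo w then wwt w else 0) =
      Dc d cap n a * ∑ v ∈ FW cap m, wwt v := by
  rw [sum_FW_add, mul_sum]
  unfold Dc
  rw [sum_mul]
  refine sum_congr rfl fun u hu => ?_
  rw [mul_sum, mul_sum]
  refine sum_congr rfl fun v _ => ?_
  have h1 := valid_append d a ((mem_FW.1 hu).1) v
  by_cases h : (3 : ℤ) ^ n ∣ 2 ^ u.sum * a - d * Wo u
  · rw [if_pos h, if_pos (h1.2 h), wwt_append]
    ring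
  · rw [if_neg h, if_neg fun h2 => h (h1.1 h2)]
    ring

open Classical in
/-- the words of length `k` -/
theorem sum_T (d : ℤ) (A : ℝ) (k n : ℕ) (a : ℤ) :
    ∑ T ∈ range (k * (3 * k) + 1), (if Rg A k T a then (3 : ℝ) ^ n * Cv d (3 * k) k T n a else 0) =
      (3 : ℝ) ^ n * ∑ w ∈ FW (3 * k) k, (if Rg A k w.sum a then
        (if (3 : ℤ) ^ n ∣ 2 ^ w.sum * a - d * Wo w then wwt w else 0) else 0) := by
  have hmaps : ∀ w ∈ FW (3 * k) k, w.sum ∈ range (k * (3 * k) + 1) := by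
    intro w hw
    have := (sum_le_of_mem hw).2
    rw [mem_range]
    omega
  rw [← sum_fiberwise_of_maps_to hmaps, mul_sum]
  refine sum_congr rfl fun T _ => ?_
  by_cases h : Rg A k T a
  · rw [if_pos h]
    congr 1
    unfold Cv FWT
    refine sum_congr ?_ fun w hw => ?_
    · rfl
    · rw [(mem_filter.1 hw).2, if_pos h]
  · rw [if_neg h]
    symm
    rw [sum_eq_zero, mul_zero]
    intro w hw
    rw [(mem_filter.1 hw).2, if_neg h]

theorem Cv_nonneg (d : ℤ) (cap k T n : ℕ) (a : ℤ) : 0 ≤ Cv d cap k T n a := by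
  unfold Cv
  refine sum_nonneg fun w _ => ?_
  split_ifs
  · exact wwt_nonneg w
  · exact le_rfl

theorem q_ge : 1 / 4 ≤ Real.log (4 / 3) := by
  have h := Real.one_sub_inv_le_log_of_pos (show (0 : ℝ) < 4 / 3 by norm_num)
  norm_num at h
  linarith

/-- the words with a size close to the mean end in the window -/
theorem Rg_of {A : ℝ} (hA : 1 ≤ A) {a : ℤ} (ha : A ≤ a) (ha2 : (a : ℝ) < 2 * A) {η : ℝ} (hη : 0 < η) {k T : ℕ}
    (hk1 : Real.log (2 * A) / 20 + η * Real.log (2 * A) + 2 ≤ k * Real.log (4 / 3))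
    (hk2 : k * Real.log (4 / 3) ≤ Real.log (2 * A) / 10 - η * Real.log (2 * A) - 2)
    (hT : |(T : ℝ) - 2 * k| < η * k) : Rg A k T a := by
  set ℓ := Real.log (2 * A) with hℓ
  have hA0 : 0 < A := by linarith
  have ha0 : 0 < (a : ℝ) := by linarith
  have hlogA : Real.log A = ℓ - Real.log 2 := by
    rw [hℓ, Real.log_mul (by norm_num) hA0.ne']
    ring
  have hl2 := Real.log_two_gt_d9
  have hl2' := Real.log_two_lt_d9
  have hloga1 : ℓ - Real.log 2 ≤ Real.log a := by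
    rw [← hlogA]
    exact Real.log_le_log hA0 ha
  have hloga2 : Real.log a ≤ ℓ := Real.log_le_log ha0 ha2.le
  have hℓ0 : 0 ≤ ℓ := Real.log_nonneg (by linarith)
  have hq := q_ge
  have hkℓ : (k : ℝ) ≤ ℓ := by
    have h1 : 0 ≤ η * ℓ := by positivity
    nlinarith
  have hηk : η * k * Real.log 2 ≤ η * ℓ := by
    have h1 : (k : ℝ) * Real.log 2 ≤ ℓ * 1 := mul_le_mul hkℓ (by linarith) (by linarith) hℓ0
    calc η * k * Real.log 2 = η * (k * Real.log 2) := by ring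
      _ ≤ η * ℓ := mul_le_mul_of_nonneg_left (by linarith) hη.le
  have hT' := abs_lt.1 hT
  have h43 : Real.log (4 / 3) = 2 * Real.log 2 - Real.log 3 := by
    rw [Real.log_div (by norm_num) (by norm_num), show (4 : ℝ) = 2 ^ 2 by norm_num, Real.log_pow]
    norm_num
  have hlog : Real.log ((2 : ℝ) ^ T * a / 3 ^ k) = (T - 2 * k) * Real.log 2 + k * Real.log (4 / 3) + Real.log a := by
    rw [Real.log_div (by positivity) (by positivity), Real.log_mul (by positivity) ha0.ne', Real.log_pow,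
      Real.log_pow, h43]
    ring
  have h1 : -(η * ℓ) ≤ (T - 2 * k) * Real.log 2 := by
    have : -(η * k) * Real.log 2 ≤ ((T : ℝ) - 2 * k) * Real.log 2 :=
      mul_le_mul_of_nonneg_right hT'.1.le (by linarith)
    linarith
  have h2 : (T - 2 * k) * Real.log 2 ≤ η * ℓ := by
    have : ((T : ℝ) - 2 * k) * Real.log 2 ≤ (η * k) * Real.log 2 :=
      mul_le_mul_of_nonneg_right hT'.2.le (by linarith)
    linarith
  have hpos : 0 < (2 : ℝ) ^ T * a / 3 ^ k := by positivity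
  have hUl : 0 < Ul A := Real.rpow_pos_of_pos (by linarith) _
  have hUr : 0 < Ur A := Real.rpow_pos_of_pos (by linarith) _
  constructor
  · rw [← Real.log_le_log_iff (by positivity) hpos, hlog, Real.log_mul (by norm_num) hUl.ne']
    unfold Ul
    rw [Real.log_rpow (by linarith), ← hℓ]
    linarith
  · rw [← Real.log_le_log_iff hpos (by positivity), hlog, Real.log_div hUr.ne' (by norm_num)]
    unfold Ur
    rw [Real.log_rpow (by linarith), ← hℓ]
    linarith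

open Classical in
/-- the contribution of one length -/
theorem one_k (hD : S_Dlm) {d : ℤ} (hd : IsCoprime d 3) (n : ℕ) {A : ℝ} (hA : 1 ≤ A) {a : ℤ} (ha : A ≤ a)
    (ha2 : (a : ℝ) < 2 * A) {η : ℝ} (hη : 0 < η) (hη1 : η ≤ 1) {k : ℕ} (hnk : n ≤ k)
    (hk1 : Real.log (2 * A) / 20 + η * Real.log (2 * A) + 2 ≤ k * Real.log (4 / 3))
    (hk2 : k * Real.log (4 / 3) ≤ Real.log (2 * A) / 10 - η * Real.log (2 * A) - 2) :
    Dn d n a - (3 ^ n * n * (1 / 2) ^ (3 * k) + 3 ^ n * (k * (1 / 2) ^ (3 * k)) +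
      3 ^ n * (2 * Real.exp (-(η ^ 2 * k / 32)))) ≤
      ∑ T ∈ range (k * (3 * k) + 1), (if Rg A k T a then (3 : ℝ) ^ n * Cv d (3 * k) k T n a else 0) := by
  rw [sum_T]
  obtain ⟨h0, h1, h2, h3⟩ := (hD d hd n).1 (3 * k) a
  -- all the words
  have hall := split d (3 * k) n (k - n) a
  rw [Nat.add_sub_cancel' hnk] at hall
  -- the tail
  have htail := tail (3 * k) k hη hη1
  have hpt : ∀ w ∈ FW (3 * k) k, (if (3 : ℤ) ^ n ∣ 2 ^ w.sum * a - d * Wo w then wwt w else 0) -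
      (if η * k ≤ |(w.sum : ℝ) - 2 * k| then wwt w else 0) ≤
      (if Rg A k w.sum a then (if (3 : ℤ) ^ n ∣ 2 ^ w.sum * a - d * Wo w then wwt w else 0) else 0) := by
    intro w _
    have hw := wwt_nonneg w
    by_cases h : η * k ≤ |(w.sum : ℝ) - 2 * k|
    · rw [if_pos h]
      have e1 : (if (3 : ℤ) ^ n ∣ 2 ^ w.sum * a - d * Wo w then wwt w else 0) ≤ wwt w := by
        split_ifs
        · exact le_rfl
        · exact hw
      have e2 : 0 ≤ (if Rg A k w.sum a then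
          (if (3 : ℤ) ^ n ∣ 2 ^ w.sum * a - d * Wo w then wwt w else 0) else 0) := by
        split_ifs
        · exact hw
        · exact le_rfl
        · exact le_rfl
      linarith
    · rw [if_neg h, sub_zero, if_pos (Rg_of hA ha ha2 hη hk1 hk2 (not_le.1 h))]
  have hsum := sum_le_sum hpt
  rw [sum_sub_distrib, ← sum_filter (fun w : List ℕ => η * k ≤ |(w.sum : ℝ) - 2 * k|)] at hsum
  have h3n : (0 : ℝ) < 3 ^ n := by positivity
  have h4 := mul_le_mul_of_nonneg_left hsum h3n.le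
  rw [mul_sub, hall] at h4
  refine le_trans ?_ h4
  have h5 := mul_le_mul_of_nonneg_left htail h3n.le
  have h6 : 1 - k * (1 / 2 : ℝ) ^ (3 * k) ≤ ∑ v ∈ FW (3 * k) (k - n), wwt v := by
    rw [sum_wwt]
    have h7 : (0 : ℝ) ≤ (1 / 2) ^ (3 * k) := by positivity
    have h8 : ((1 / 2 : ℝ)) ^ (3 * k) ≤ 1 := pow_le_one₀ (by norm_num) (by norm_num)
    have h9 := one_add_mul_le_pow (show (-2 : ℝ) ≤ -((1 / 2) ^ (3 * k)) by linarith) (k - n)
    have h10 : ((k - n : ℕ) : ℝ) ≤ k := Nat.cast_le.2 (Nat.sub_le _ _)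
    have h11 : ((k - n : ℕ) : ℝ) * (1 / 2) ^ (3 * k) ≤ k * (1 / 2) ^ (3 * k) :=
      mul_le_mul_of_nonneg_right h10 h7
    rw [← sub_eq_add_neg] at h9
    linarith
  have h7 : Dc d (3 * k) n a * (1 - k * (1 / 2 : ℝ) ^ (3 * k)) ≤
      Dc d (3 * k) n a * ∑ v ∈ FW (3 * k) (k - n), wwt v := mul_le_mul_of_nonneg_left h6 h0
  have h8 : Dc d (3 * k) n a * (k * (1 / 2 : ℝ) ^ (3 * k)) ≤ 3 ^ n * (k * (1 / 2) ^ (3 * k)) :=
    mul_le_mul_of_nonneg_right (h1.trans h2) (by positivity)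
  linarith

theorem err_tendsto (n : ℕ) {η : ℝ} (hη : 0 < η) :
    Tendsto (fun k : ℕ => (3 : ℝ) ^ n * n * (1 / 2) ^ (3 * k) + 3 ^ n * (k * (1 / 2) ^ (3 * k)) +
      3 ^ n * (2 * Real.exp (-(η ^ 2 * k / 32)))) atTop (𝓝 0) := by
  have e8 : ∀ k : ℕ, (1 / 2 : ℝ) ^ (3 * k) = (1 / 8) ^ k := by
    intro k
    rw [pow_mul]
    norm_num
  simp only [e8]
  have h1 : Tendsto (fun k : ℕ => (1 / 8 : ℝ) ^ k) atTop (𝓝 0) :=
    tendsto_pow_atTop_nhds_zero_of_lt_one (by norm_num) (by norm_num)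
  have h2 : Tendsto (fun k : ℕ => (k : ℝ) * (1 / 8 : ℝ) ^ k) atTop (𝓝 0) :=
    tendsto_self_mul_const_pow_of_lt_one (by norm_num) (by norm_num)
  have h3 : Tendsto (fun k : ℕ => Real.exp (-(η ^ 2 * k / 32))) atTop (𝓝 0) := by
    have h4 : Tendsto (fun k : ℕ => η ^ 2 * (k : ℝ) / 32) atTop atTop := by
      have h5 : Tendsto (fun k : ℕ => η ^ 2 / 32 * (k : ℝ)) atTop atTop :=
        tendsto_natCast_atTop_atTop.const_mul_atTop (by positivity)
      refine h5.congr fun k => ?_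
      ring
    exact Real.tendsto_exp_neg_atTop_nhds_zero.comp h4
  have h4 := ((h1.const_mul ((3 : ℝ) ^ n * n)).add (h2.const_mul ((3 : ℝ) ^ n))).add
    ((h3.const_mul 2).const_mul ((3 : ℝ) ^ n))
  simp only [mul_zero, add_zero] at h4
  exact h4

/-- **S_Lln.** -/
theorem lln (hD : S_Dlm) : S_Lln := by
  classical
  intro d hd n ε hε
  have hq := q_ge
  obtain ⟨hq0, hq1⟩ := log43
  set q := Real.log (4 / 3) with hqd
  have hl2 := Real.log_two_gt_d9
  have hl2' := Real.log_two_lt_d9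
  have h3n : (0 : ℝ) < 3 ^ n := by positivity
  set η : ℝ := min 1 (ε * q / (160 * 3 ^ n)) with hη
  have hη0 : 0 < η := lt_min one_pos (by positivity)
  have hη1 : η ≤ 1 := min_le_left _ _
  have hη2 : 3 ^ n * (2 * η / q) ≤ ε / 80 := by
    have h1 : η ≤ ε * q / (160 * 3 ^ n) := min_le_right _ _
    have h2 : 3 ^ n * (2 * η / q) ≤ 3 ^ n * (2 * (ε * q / (160 * 3 ^ n)) / q) := by
      refine mul_le_mul_of_nonneg_left (div_le_div_of_nonneg_right (by linarith) hq0.le) h3n.le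
    refine h2.trans (le_of_eq ?_)
    field_simp
    norm_num
  obtain ⟨k0, hk0⟩ := eventually_atTop.1
    ((err_tendsto n hη0).eventually (gt_mem_nhds (show (0 : ℝ) < ε / 80 by positivity)))
  set m0 := max k0 (n + 1) with hm0
  have ev := (tend_len.eventually_ge_atTop (max (20 * (m0 : ℝ)) (3 ^ n * (4 / q + 1) * (80 / ε)))).and
    (eventually_ge_atTop (1 : ℝ))
  obtain ⟨A₀, hA₀⟩ := eventually_atTop.1 ev
  refine ⟨A₀, fun A hA a ha ha2 => ?_⟩
  obtain ⟨c1, hA1⟩ := hA₀ A hA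
  set ℓ := Real.log (2 * A) with hℓ
  have hℓ1 : 20 * (m0 : ℝ) ≤ ℓ := (le_max_left _ _).trans c1
  have hℓ2 : 3 ^ n * (4 / q + 1) ≤ ε / 80 * ℓ := by
    have h1 : 3 ^ n * (4 / q + 1) * (80 / ε) ≤ ℓ := (le_max_right _ _).trans c1
    have h2 : 3 ^ n * (4 / q + 1) = 3 ^ n * (4 / q + 1) * (80 / ε) * (ε / 80) := by
      field_simp
    rw [h2, mul_comm (ε / 80) ℓ]
    exact mul_le_mul_of_nonneg_right h1 (by positivity)
  have hℓ0 : 0 ≤ ℓ := Real.log_nonneg (by linarith)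
  have hlen : len A = ℓ / 20 := rfl
  have hlogA : Real.log A = ℓ - Real.log 2 := by
    rw [hℓ, Real.log_mul (by norm_num) (by linarith)]
    ring
  have hηℓ : 0 ≤ η * ℓ := by positivity
  set α := ℓ / 20 + η * ℓ + 2 with hα
  set β := ℓ / 10 - η * ℓ - 2 with hβ
  have hα0 : 0 ≤ α := by rw [hα]; positivity
  set Wd := Icc ⌈α / q⌉₊ ⌊β / q⌋₊ with hWd
  have hWk : ∀ k ∈ Wd, α ≤ k * q ∧ k * q ≤ β := by
    intro k hk
    rw [hWd, mem_Icc] at hk
    have h1 : α / q ≤ k := Nat.ceil_le.1 hk.1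
    rw [div_le_iff₀ hq0] at h1
    refine ⟨h1, ?_⟩
    have hβ0 : 0 ≤ β := by
      by_contra hneg
      push Not at hneg
      have h2 : ⌊β / q⌋₊ = 0 := Nat.floor_of_nonpos (div_nonpos_of_nonpos_of_nonneg hneg.le hq0.le)
      rw [h2] at hk
      have h3 : k = 0 := by omega
      rw [h3] at h1
      have : (0 : ℝ) < α := by rw [hα]; positivity
      simp at h1
      linarith
    have h2 : (k : ℝ) ≤ β / q := (Nat.le_floor_iff (div_nonneg hβ0 hq0.le)).1 hk.2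
    rwa [le_div_iff₀ hq0] at h2
  have hWm : ∀ k ∈ Wd, m0 ≤ k := by
    intro k hk
    obtain ⟨h1, -⟩ := hWk k hk
    have h2 : (m0 : ℝ) ≤ k := by
      have h3 : (k : ℝ) * q ≤ k * 1 := mul_le_mul_of_nonneg_left (by linarith) (Nat.cast_nonneg _)
      rw [hα] at h1
      linarith
    exact_mod_cast h2
  have hsub : Wd ⊆ Icc (n + 1) ⌊Real.log A / 2⌋₊ := by
    intro k hk
    rw [mem_Icc]
    refine ⟨(le_max_right _ _).trans (hWm k hk), Nat.le_floor ?_⟩
    obtain ⟨-, h2⟩ := hWk k hk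
    have h3 : (k : ℝ) * (1 / 4) ≤ k * q := mul_le_mul_of_nonneg_left hq (Nat.cast_nonneg _)
    rw [hβ] at h2
    linarith
  have hcard1 : (Wd.card : ℝ) ≤ ℓ := by
    have h1 := card_le_card hsub
    have h1' := Nat.card_Icc (n + 1) ⌊Real.log A / 2⌋₊
    have h2 : Wd.card ≤ ⌊Real.log A / 2⌋₊ := by
      rw [h1'] at h1
      omega
    have h3 : (Wd.card : ℝ) ≤ ⌊Real.log A / 2⌋₊ := Nat.cast_le.2 h2
    rcases le_total 0 (Real.log A / 2) with h4 | h4
    · have h5 := Nat.floor_le h4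
      linarith
    · rw [Nat.floor_of_nonpos h4] at h3
      simp at h3
      rw [h3]
      simpa using hℓ0
  have hcard2 : (β - α) / q - 1 ≤ (Wd.card : ℝ) := by
    rw [hWd, Nat.card_Icc]
    have h1 : α / q + 1 > ⌈α / q⌉₊ := Nat.ceil_lt_add_one (div_nonneg hα0 hq0.le)
    have h2 : β / q < ⌊β / q⌋₊ + 1 := Nat.lt_floor_add_one _
    have h3 : ((⌊β / q⌋₊ : ℝ) + 1) - ⌈α / q⌉₊ ≤ ((⌊β / q⌋₊ + 1 - ⌈α / q⌉₊ : ℕ) : ℝ) := by
      rcases le_total ⌈α / q⌉₊ (⌊β / q⌋₊ + 1) with h | h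
      · rw [Nat.cast_sub h]
        push_cast
        exact le_rfl
      · rw [Nat.sub_eq_zero_of_le h]
        have : ((⌊β / q⌋₊ + 1 : ℕ) : ℝ) ≤ ⌈α / q⌉₊ := Nat.cast_le.2 h
        push_cast at this ⊢
        linarith
    rw [sub_div]
    linarith
  obtain ⟨-, h1, h2, -⟩ := (hD d hd n).1 0 a
  have hDn0 : 0 ≤ Dn d n a := ((hD d hd n).1 0 a).1.trans h1
  have hlow : ∀ k ∈ Wd, Dn d n a - ε / 80 ≤
      ∑ T ∈ range (k * (3 * k) + 1), (if Rg A k T a then (3 : ℝ) ^ n * Cv d (3 * k) k T n a else 0) := by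
    intro k hk
    obtain ⟨e1, e2⟩ := hWk k hk
    have e3 := hWm k hk
    have e4 := hk0 k ((le_max_left _ _).trans e3)
    have e5 := one_k hD hd n hA1 ha ha2 hη0 hη1 ((Nat.le_succ n).trans ((le_max_right _ _).trans e3)) e1 e2
    linarith
  have hnn : ∀ k ∈ Icc (n + 1) ⌊Real.log A / 2⌋₊, k ∉ Wd → 0 ≤
      ∑ T ∈ range (k * (3 * k) + 1), (if Rg A k T a then (3 : ℝ) ^ n * Cv d (3 * k) k T n a else 0) := by
    intro k _ _
    refine sum_nonneg fun T _ => ?_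
    split_ifs
    · exact mul_nonneg h3n.le (Cv_nonneg _ _ _ _ _ _)
    · exact le_rfl
  refine le_trans ?_ (sum_le_sum_of_subset_of_nonneg hsub hnn)
  refine le_trans ?_ (sum_le_sum hlow)
  rw [sum_const, nsmul_eq_mul, hlen]
  have hβα : (β - α) / q - 1 = ℓ / 20 / q - (2 * η / q) * ℓ - (4 / q + 1) := by
    rw [hα, hβ]
    ring
  rw [hβα] at hcard2
  have h5 : Dn d n a * ((2 * η / q) * ℓ) ≤ ε / 80 * ℓ := by
    calc Dn d n a * ((2 * η / q) * ℓ) ≤ 3 ^ n * ((2 * η / q) * ℓ) := mul_le_mul_of_nonneg_right h2 (by positivity)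
      _ = 3 ^ n * (2 * η / q) * ℓ := by ring
      _ ≤ ε / 80 * ℓ := mul_le_mul_of_nonneg_right hη2 hℓ0
  have h6 : Dn d n a * (4 / q + 1) ≤ ε / 80 * ℓ :=
    (mul_le_mul_of_nonneg_right h2 (by positivity)).trans hℓ2
  have h7 := mul_le_mul_of_nonneg_left hcard2 hDn0
  have h8 : (Wd.card : ℝ) * (ε / 80) ≤ ℓ * (ε / 80) := mul_le_mul_of_nonneg_right hcard1 (by positivity)
  have h9 : ℓ / 20 / q * Dn d n a = Dn d n a * (ℓ / 20 / q) := mul_comm _ _
  rw [h9]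
  have h10 : Dn d n a * (ℓ / 20 / q - 2 * η / q * ℓ - (4 / q + 1)) =
      Dn d n a * (ℓ / 20 / q) - Dn d n a * (2 * η / q * ℓ) - Dn d n a * (4 / q + 1) := by ring
  rw [h10] at h7
  have h11 : 0 ≤ ε * ℓ := by positivity
  nlinarith

end Pool.Agent.Q237.PD
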