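import Pool.Agent.Q237.PD.Prs

/-! # Project PD (helper74): total mass of the visits of `[A, 2A)` -/

set_option autoImplicit false

namespace Pool.Agent.Q237.PD

open Finset Filter Topology
open Pool.Agent.H499R2.ND Pool.Agent.H320R2.PD Pool.Agent.Y856.PD Pool.Agent.Q74.PD

/-- exponential weights -/
noncomputable def ge (l : ℝ) : ℕ → ℤ → ℝ :=
  fun _ b => if b = 0 then Real.exp (-(l / 2)) else Real.exp (-(l / 2)) * Real.exp l

theorem W_ge (d x : ℤ) (l : ℝ) (i : ℕ) : W d (ge l) i x = Real.exp (l * ((oc d x i : ℝ) - i / 2)) := by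
  have h1 : W d (ge l) i x = Real.exp (-(l / 2)) ^ i * Real.exp l ^ oc d x i := by
    rw [← prod_oc]
    rfl
  rw [h1, ← Real.exp_nat_mul, ← Real.exp_nat_mul, ← Real.exp_add]
  congr 1
  ring

theorem ge_nonneg (l : ℝ) (s : ℕ) (b : ℤ) : 0 ≤ ge l s b := by
  unfold ge
  split_ifs <;> positivity

theorem ge_prod (l : ℝ) (i : ℕ) : ∏ s ∈ range i, (ge l s 0 + ge l s 1) ≤ 2 ^ i * Real.exp (i * (l ^ 2 / 8)) := by
  have h1 : ∀ s ∈ range i, ge l s 0 + ge l s 1 = 2 * Real.cosh (l / 2) := by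
    intro s _
    unfold ge
    rw [if_pos rfl, if_neg one_ne_zero, ← Real.exp_add, Real.cosh_eq]
    rw [show -(l / 2) + l = l / 2 by ring]
    ring
  rw [prod_congr rfl h1, prod_const, card_range, mul_pow]
  refine mul_le_mul_of_nonneg_left ?_ (by positivity)
  rw [Real.exp_nat_mul]
  refine pow_le_pow_left₀ (Real.cosh_pos _).le ?_ _
  refine (Real.cosh_le_exp_half_sq _).trans (le_of_eq ?_)
  congr 1
  ring

/-- large deviations of the number of odd terms -/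
theorem bad_mass {d : ℤ} (hd : Odd d) {A : ℝ} (hA : 1 ≤ A) (hdA : |(d : ℝ)| / √A ≤ 1 / 2) {i : ℕ}
    (hi : i ≤ ⌊Real.log A⌋₊) (S : Finset ℤ) (hSU : ∀ x ∈ S, Ul A ≤ (x : ℝ))
    (hS : ∀ x ∈ S, A ≤ (((Td d)^[i] x : ℤ) : ℝ) ∧ (((Td d)^[i] x : ℤ) : ℝ) < 2 * A) {l τ : ℝ} (hl : 0 ≤ l)
    (hτ : ∀ x ∈ S, τ ≤ |(oc d x i : ℝ) - i / 2|) :
    ∑ x ∈ S, 1 / (x : ℝ) ≤ 8 * Real.exp (i * (l ^ 2 / 8) - l * τ) := by
  have hUl := Ul_ge hA
  have hU : 0 < Ul A := by linarith
  have h2n : (2 : ℝ) ^ i ≤ Ul A := by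
    have := two_pow_le hA hi
    linarith
  have hfac : 1 / Ul A + (Real.log 2 + 4 * (|(d : ℝ)| / √A)) / 2 ^ i ≤ 4 / 2 ^ i := by
    have h1 : 1 / Ul A ≤ 1 / 2 ^ i := one_div_le_one_div_of_le (by positivity) h2n
    have h2 : Real.log 2 + 4 * (|(d : ℝ)| / √A) ≤ 3 := by
      have := Real.log_two_lt_d9
      linarith
    have h3 : (Real.log 2 + 4 * (|(d : ℝ)| / √A)) / 2 ^ i ≤ 3 / 2 ^ i :=
      div_le_div_of_nonneg_right h2 (by positivity)
    have h4 : (4 : ℝ) / 2 ^ i = 1 / 2 ^ i + 3 / 2 ^ i := by ring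
    linarith
  have hone : ∀ m : ℝ, m ^ 2 = l ^ 2 → ∑ x ∈ S, 1 / (x : ℝ) * W d (ge m) i x ≤ 4 * Real.exp (i * (l ^ 2 / 8)) := by
    intro m hm
    have h1 := mass_le hd hA le_rfl (kappa hA d hi) hdA hU S hSU hS (ge m) (ge_nonneg m)
    refine h1.trans ?_
    have h2 := ge_prod m i
    rw [hm] at h2
    have h0 : 0 ≤ ∏ s ∈ range i, (ge m s 0 + ge m s 1) :=
      prod_nonneg fun s _ => add_nonneg (ge_nonneg _ _ _) (ge_nonneg _ _ _)
    calc (1 / Ul A + (Real.log 2 + 4 * (|(d : ℝ)| / √A)) / 2 ^ i) * ∏ s ∈ range i, (ge m s 0 + ge m s 1)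
        ≤ 4 / 2 ^ i * (2 ^ i * Real.exp (i * (l ^ 2 / 8))) :=
          mul_le_mul hfac h2 h0 (by positivity)
      _ = 4 * Real.exp (i * (l ^ 2 / 8)) := by field_simp
  have h1 := hone l rfl
  have h2 := hone (-l) (by ring)
  have h3 : ∀ x ∈ S, 1 / (x : ℝ) ≤
      Real.exp (-(l * τ)) * (1 / (x : ℝ) * W d (ge l) i x + 1 / (x : ℝ) * W d (ge (-l)) i x) := by
    intro x hx
    have hx0 : 0 < (x : ℝ) := lt_of_lt_of_le hU (hSU x hx)
    have h4 : 1 ≤ Real.exp (-(l * τ)) * (W d (ge l) i x + W d (ge (-l)) i x) := by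
      rw [W_ge, W_ge]
      set D := (oc d x i : ℝ) - i / 2 with hD
      have h5 : Real.exp (l * τ) ≤ Real.exp (l * D) + Real.exp (-l * D) := by
        have h6 : l * τ ≤ l * |D| := mul_le_mul_of_nonneg_left (hτ x hx) hl
        have h7 := Real.exp_le_exp.2 h6
        have h8 := Real.exp_pos (l * D)
        have h9 := Real.exp_pos (-l * D)
        rcases abs_choice D with h | h
        · rw [h] at h7
          linarith
        · rw [h, mul_neg, ← neg_mul] at h7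
          linarith
      have h6 : Real.exp (-(l * τ)) * Real.exp (l * τ) = 1 := by
        rw [← Real.exp_add]
        simp
      have h7 := mul_le_mul_of_nonneg_left h5 (Real.exp_pos (-(l * τ))).le
      linarith
    have h5 : 0 ≤ 1 / (x : ℝ) := by positivity
    calc 1 / (x : ℝ) = 1 / (x : ℝ) * 1 := (mul_one _).symm
      _ ≤ 1 / (x : ℝ) * (Real.exp (-(l * τ)) * (W d (ge l) i x + W d (ge (-l)) i x)) :=
          mul_le_mul_of_nonneg_left h4 h5
      _ = _ := by ring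
  refine (sum_le_sum h3).trans ?_
  rw [← mul_sum, sum_add_distrib]
  calc Real.exp (-(l * τ)) * (∑ x ∈ S, 1 / (x : ℝ) * W d (ge l) i x + ∑ x ∈ S, 1 / (x : ℝ) * W d (ge (-l)) i x)
      ≤ Real.exp (-(l * τ)) * (8 * Real.exp (i * (l ^ 2 / 8))) :=
        mul_le_mul_of_nonneg_left (by linarith) (Real.exp_pos _).le
    _ = 8 * Real.exp (i * (l ^ 2 / 8) - l * τ) := by
        rw [sub_eq_add_neg, Real.exp_add]
        ring

/-- the bound for one time -/
theorem good_mass {d : ℤ} (hd : Odd d) {A : ℝ} (hA : 1 ≤ A) (hdA : |(d : ℝ)| / √A ≤ 1 / 2) {i : ℕ}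
    (hi : i ≤ ⌊Real.log A⌋₊) (S : Finset ℤ) (hSU : ∀ x ∈ S, Ul A ≤ (x : ℝ)) (hodd : ∀ x ∈ S, Odd x)
    (hS : ∀ x ∈ S, A ≤ (((Td d)^[i] x : ℤ) : ℝ) ∧ (((Td d)^[i] x : ℤ) : ℝ) < 2 * A) :
    ∑ x ∈ S, 1 / (x : ℝ) ≤ Real.log 2 / 2 + 2 * (|(d : ℝ)| / √A) + A / Ul A := by
  have hUl := Ul_ge hA
  have hU : 0 < Ul A := by linarith
  have hlog2 : 0 ≤ Real.log 2 := Real.log_nonneg (by norm_num)
  rcases i with _ | i
  · rcases S.eq_empty_or_nonempty with rfl | ⟨y, hy⟩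
    · rw [sum_empty]
      positivity
    · exfalso
      have h1 := (hS y hy).2
      have h2 := hSU y hy
      rw [Function.iterate_zero_apply] at h1
      linarith
  · set g : ℕ → ℤ → ℝ := fun s b => if s = 0 ∧ b = 0 then 0 else 1 with hg
    have hg0 : ∀ s b, 0 ≤ g s b := by
      intro s b
      rw [hg]
      dsimp only
      split_ifs <;> norm_num
    have h1 := mass_le hd hA le_rfl (kappa hA d hi) hdA hU S hSU hS g hg0
    have h2 : ∏ s ∈ range (i + 1), (g s 0 + g s 1) = 2 ^ i := by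
      rw [prod_range_succ']
      have e1 : ∀ s ∈ range i, g (s + 1) 0 + g (s + 1) 1 = 2 := by
        intro s _
        rw [hg]
        norm_num
      rw [prod_congr rfl e1, prod_const, card_range, hg]
      norm_num
    have h3 : ∀ x ∈ S, W d g (i + 1) x = 1 := by
      intro x hx
      unfold W
      refine prod_eq_one fun s _ => ?_
      rw [hg]
      dsimp only
      rw [if_neg]
      rintro ⟨rfl, h⟩
      have h4 := Int.odd_iff.1 (hodd x hx)
      rw [Function.iterate_zero_apply] at h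
      omega
    have h4 : ∑ x ∈ S, 1 / (x : ℝ) * W d g (i + 1) x = ∑ x ∈ S, 1 / (x : ℝ) :=
      sum_congr rfl fun x hx => by rw [h3 x hx, mul_one]
    rw [h4, h2] at h1
    refine h1.trans ?_
    have h5 : (2 : ℝ) ^ i ≤ A := by
      have h6 := two_pow_le hA hi
      have h7 : (2 : ℝ) ^ i ≤ 2 ^ (i + 1) := pow_le_pow_right₀ (by norm_num) (by omega)
      linarith
    have h6 : (1 / Ul A + (Real.log 2 + 4 * (|(d : ℝ)| / √A)) / 2 ^ (i + 1)) * 2 ^ i =
        2 ^ i / Ul A + (Real.log 2 / 2 + 2 * (|(d : ℝ)| / √A)) := by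
      rw [pow_succ]
      field_simp
      ring
    rw [h6]
    have h7 : (2 : ℝ) ^ i / Ul A ≤ A / Ul A := div_le_div_of_nonneg_right h5 hU.le
    linarith

/-- the number of odd terms at an exceptional time -/
theorem deviation {d : ℤ} (hd : Odd d) {A : ℝ} (hA : 1 ≤ A) (hdA : |(d : ℝ)| / √A ≤ 1 / 2) {i : ℕ}
    (hi : i ≤ ⌊Real.log A⌋₊) {x : ℤ} (hx1 : Ul A ≤ (x : ℝ)) (hx2 : (x : ℝ) < Ur A)
    (h1 : A ≤ (((Td d)^[i] x : ℤ) : ℝ)) (h2 : (((Td d)^[i] x : ℤ) : ℝ) < 2 * A) {δ : ℝ} (hδ : 4 ≤ δ * Real.log (2 * A))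
    (hbad : ¬ ((1 / 20 - δ) * Real.log (2 * A) ≤ i * (Real.log (4 / 3) / 2) ∧
      i * (Real.log (4 / 3) / 2) ≤ (1 / 10 + δ) * Real.log (2 * A))) :
    δ * Real.log (2 * A) / 4 ≤ |(oc d x i : ℝ) - i / 2| := by
  have hUl := Ul_ge hA
  have hx0 : 0 < (x : ℝ) := by linarith
  have hA0 : 0 < A := by linarith
  set ℓ := Real.log (2 * A) with hℓ
  have hlogA : Real.log A = ℓ - Real.log 2 := by
    rw [hℓ, Real.log_mul (by norm_num) hA0.ne']
    ring
  have hlogx1 : 21 / 20 * ℓ ≤ Real.log x := by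
    have h3 := Real.log_le_log (show 0 < Ul A by linarith) hx1
    unfold Ul at h3
    rwa [Real.log_rpow (by linarith)] at h3
  have hlogx2 : Real.log x ≤ 11 / 10 * ℓ := by
    have h3 := Real.log_le_log hx0 hx2.le
    unfold Ur at h3
    rwa [Real.log_rpow (by linarith)] at h3
  set y := (Td d)^[i] x with hy
  set o := oc d x i with ho
  have hid : (2 : ℝ) ^ i * (y : ℝ) = 3 ^ o * x + d * cc d x i := by
    have := ident hd x i
    exact_mod_cast this
  have hc : |(d : ℝ) * cc d x i| ≤ 1 / 2 * (2 ^ i * A) := by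
    have h6 : (cc d x i : ℝ) ≤ 3 ^ i := by
      have h7 := cc_le d x i
      have h8 : 0 < 2 ^ i := by positivity
      have h9 : cc d x i ≤ 3 ^ i := by omega
      exact_mod_cast h9
    rw [abs_mul, abs_of_nonneg (show (0 : ℝ) ≤ (cc d x i : ℝ) from Nat.cast_nonneg _)]
    calc |(d : ℝ)| * cc d x i ≤ |(d : ℝ)| * 3 ^ i := mul_le_mul_of_nonneg_left h6 (abs_nonneg _)
      _ ≤ |(d : ℝ)| / √A * (2 ^ i * A) := kappa hA d hi
      _ ≤ 1 / 2 * (2 ^ i * A) := mul_le_mul_of_nonneg_right hdA (by positivity)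
  have hc' := abs_le.1 hc
  have h3 : (2 : ℝ) ^ i * A ≤ 2 ^ i * y := mul_le_mul_of_nonneg_left h1 (by positivity)
  have h4 : (2 : ℝ) ^ i * y ≤ 2 ^ i * (2 * A) := mul_le_mul_of_nonneg_left h2.le (by positivity)
  have h5 : (2 : ℝ) ^ i * A / 2 ≤ 3 ^ o * x := by linarith [hc'.2]
  have h6 : (3 : ℝ) ^ o * x ≤ 2 ^ i * A * 3 := by
    have : 0 ≤ (2 : ℝ) ^ i * A := by positivity
    linarith [hc'.1]
  have h7 : i * Real.log 2 + Real.log A - Real.log 2 ≤ o * Real.log 3 + Real.log x := by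
    have h8 := Real.log_le_log (by positivity) h5
    rw [Real.log_div (by positivity) (by norm_num), Real.log_mul (by positivity) (by positivity),
      Real.log_mul (by positivity) (by positivity), Real.log_pow, Real.log_pow] at h8
    exact h8
  have h8 : o * Real.log 3 + Real.log x ≤ i * Real.log 2 + Real.log A + Real.log 3 := by
    have h9 := Real.log_le_log (by positivity) h6
    rw [Real.log_mul (by positivity) (by positivity), Real.log_mul (by positivity) (by positivity),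
      Real.log_mul (by positivity) (by positivity), Real.log_pow, Real.log_pow] at h9
    exact h9
  have hl2 := Real.log_two_lt_d9
  have hl2' := Real.log_two_gt_d9
  have hl3 : Real.log 3 < 2 := by
    rw [Real.log_lt_iff_lt_exp (by norm_num)]
    have h9 := Real.exp_one_gt_d9
    have h10 : Real.exp 2 = Real.exp 1 * Real.exp 1 := by
      rw [← Real.exp_add]
      norm_num
    rw [h10]
    nlinarith
  have hl3' : 0 < Real.log 3 := Real.log_pos (by norm_num)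
  have hl43 : Real.log (4 / 3) = 2 * Real.log 2 - Real.log 3 := by
    rw [Real.log_div (by norm_num) (by norm_num), show (4 : ℝ) = 2 ^ 2 by norm_num, Real.log_pow]
    norm_num
  rw [hl43] at hbad
  set D := (o : ℝ) - i / 2 with hD
  have hDl : D * Real.log 3 = i * ((2 * Real.log 2 - Real.log 3) / 2) + (o * Real.log 3 - i * Real.log 2) := by
    rw [hD]
    ring
  have hkey : δ * ℓ / 2 ≤ |D| * Real.log 3 := by
    rw [← abs_of_pos hl3', ← abs_mul]
    rcases not_and_or.1 hbad with hb | hb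
    · rw [not_le] at hb
      have h9 : D * Real.log 3 ≤ -(δ * ℓ / 2) := by
        rw [hDl]
        have e1 : (1 / 20 - δ) * ℓ = ℓ / 20 - δ * ℓ := by ring
        rw [e1] at hb
        linarith
      have h10 := neg_le_abs (D * Real.log 3)
      linarith
    · rw [not_le] at hb
      have h9 : δ * ℓ / 2 ≤ D * Real.log 3 := by
        rw [hDl]
        have e1 : (1 / 10 + δ) * ℓ = ℓ / 10 + δ * ℓ := by ring
        rw [e1] at hb
        linarith
      exact h9.trans (le_abs_self _)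
  have h9 : 0 ≤ |D| := abs_nonneg _
  nlinarith

theorem card_window {l a b : ℝ} (hl : 0 < l) (ha : 0 ≤ a) (hab : a ≤ b) (N : ℕ) :
    (((range N).filter fun i : ℕ => a ≤ i * l ∧ i * l ≤ b).card : ℝ) ≤ (b - a) / l + 1 := by
  have hsub : ((range N).filter fun i : ℕ => a ≤ i * l ∧ i * l ≤ b) ⊆ Icc ⌈a / l⌉₊ ⌊b / l⌋₊ := by
    intro i hi
    rw [mem_filter] at hi
    rw [mem_Icc]
    constructor
    · rw [Nat.ceil_le, div_le_iff₀ hl]
      exact hi.2.1
    · rw [Nat.le_floor_iff (div_nonneg (ha.trans hab) hl.le), le_div_iff₀ hl]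
      exact hi.2.2
  have h1 := card_le_card hsub
  rw [Nat.card_Icc] at h1
  have h2 : ((⌊b / l⌋₊ + 1 - ⌈a / l⌉₊ : ℕ) : ℝ) ≤ (b - a) / l + 1 := by
    rcases le_total ⌈a / l⌉₊ (⌊b / l⌋₊ + 1) with h | h
    · rw [Nat.cast_sub h]
      push_cast
      have h3 := Nat.floor_le (div_nonneg (ha.trans hab) hl.le)
      have h4 := Nat.le_ceil (a / l)
      rw [sub_div]
      linarith
    · rw [Nat.sub_eq_zero_of_le h, Nat.cast_zero]
      have : 0 ≤ (b - a) / l := div_nonneg (by linarith) hl.le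
      linarith
  exact (Nat.cast_le.2 h1).trans h2

theorem log43 : 0 < Real.log (4 / 3) ∧ Real.log (4 / 3) < Real.log 2 := by
  constructor
  · exact Real.log_pos (by norm_num)
  · exact Real.log_lt_log (by norm_num) (by norm_num)

theorem tend_len : Tendsto (fun A : ℝ => Real.log (2 * A)) atTop atTop :=
  Real.tendsto_log_atTop.comp (tendsto_id.const_mul_atTop (by norm_num))

theorem tend_Ul : Tendsto (fun A : ℝ => A / Ul A) atTop (𝓝 0) := by
  have h1 : Tendsto (fun A : ℝ => 1 / 2 * (2 * A) ^ (-(1 / 20) : ℝ)) atTop (𝓝 0) := by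
    have h2 := (tendsto_rpow_neg_atTop (show (0 : ℝ) < 1 / 20 by norm_num)).comp
      (tendsto_id.const_mul_atTop (show (0 : ℝ) < 2 by norm_num) : Tendsto (fun A : ℝ => 2 * A) atTop atTop)
    have h3 := h2.const_mul (1 / 2 : ℝ)
    rw [mul_zero] at h3
    exact h3
  refine h1.congr' ?_
  filter_upwards [eventually_gt_atTop 0] with A hA
  unfold Ul
  have h2A : 0 < 2 * A := by linarith
  rw [Real.rpow_neg h2A.le]
  have h4 : (2 * A) ^ (21 / 20 : ℝ) = (2 * A) * (2 * A) ^ (1 / 20 : ℝ) := by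
    rw [show (21 / 20 : ℝ) = 1 + 1 / 20 by norm_num, Real.rpow_add h2A, Real.rpow_one]
  rw [h4]
  have h5 : 0 < (2 * A) ^ (1 / 20 : ℝ) := Real.rpow_pos_of_pos h2A _
  field_simp

theorem tend_sqrt (d : ℤ) : Tendsto (fun A : ℝ => |(d : ℝ)| / √A) atTop (𝓝 0) :=
  Real.tendsto_sqrt_atTop.const_div_atTop _

/-- **S_Mas.** -/
theorem mas : S_Mas := by
  classical
  intro d hd ε₀ hε₀
  set ε : ℝ := min ε₀ 1 with hε
  have hε0 : 0 < ε := lt_min hε₀ one_pos
  have hε1 : ε ≤ 1 := min_le_right _ _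
  set δ : ℝ := ε / 200 with hδ
  have hδ0 : 0 < δ := by positivity
  obtain ⟨hq0, hq1⟩ := log43
  have hl2 := Real.log_two_gt_d9
  have hl2' := Real.log_two_lt_d9
  have t4 : Tendsto (fun A : ℝ => 8 * Real.exp (-(δ ^ 2 / 8 * Real.log (2 * A)))) atTop (𝓝 0) := by
    have h1 : Tendsto (fun A : ℝ => δ ^ 2 / 8 * Real.log (2 * A)) atTop atTop :=
      tend_len.const_mul_atTop (by positivity)
    have h2 := (Real.tendsto_exp_neg_atTop_nhds_zero.comp h1).const_mul 8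
    rw [mul_zero] at h2
    exact h2
  have ev := (((tend_sqrt d).eventually (gt_mem_nhds (show (0 : ℝ) < ε / 100 by positivity))).and
    (tend_Ul.eventually (gt_mem_nhds (show (0 : ℝ) < ε / 100 by positivity)))).and
    ((t4.eventually (gt_mem_nhds (show (0 : ℝ) < ε / 160 by positivity))).and
    ((tend_len.eventually_ge_atTop (max (4 / δ) (80 / ε))).and (eventually_ge_atTop (1 : ℝ))))
  obtain ⟨A₀, hA₀⟩ := eventually_atTop.1 ev
  refine ⟨A₀, fun A hA => ?_⟩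
  obtain ⟨⟨c1, c2⟩, c3, c4, hA1⟩ := hA₀ A hA
  set ℓ := Real.log (2 * A) with hℓ
  have hℓ1 : 4 / δ ≤ ℓ := (le_max_left _ _).trans c4
  have hℓ2 : 80 / ε ≤ ℓ := (le_max_right _ _).trans c4
  have hℓδ : 4 ≤ δ * ℓ := by
    rw [div_le_iff₀ hδ0] at hℓ1
    linarith
  have hℓε : 80 ≤ ε * ℓ := by
    rw [div_le_iff₀ hε0] at hℓ2
    linarith
  have hℓ80 : 80 ≤ ℓ := by nlinarith
  have hdA : |(d : ℝ)| / √A ≤ 1 / 2 := by linarith
  have hlogA : Real.log A = ℓ - Real.log 2 := by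
    rw [hℓ, Real.log_mul (by norm_num) (by linarith)]
    ring
  set N := ⌊Real.log A⌋₊ with hN
  have hNle : ((N + 1 : ℕ) : ℝ) ≤ 2 * ℓ := by
    have := Nat.floor_le (show 0 ≤ Real.log A by linarith)
    push_cast
    linarith
  have hlen : len A = ℓ / 20 := rfl
  set M : ℕ → Finset ℤ := fun i => (cls Set.univ (Ul A) (Ur A) 0 1 0).filter
    (fun x => A ≤ (((Td d)^[i] x : ℤ) : ℝ) ∧ (((Td d)^[i] x : ℤ) : ℝ) < 2 * A) with hM
  have hstart : ∑ x ∈ cls Set.univ (Ul A) (Ur A) 0 1 0, 1 / (x : ℝ) *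
      ((range (N + 1)).filter (fun i => A ≤ (((Td d)^[i] x : ℤ) : ℝ) ∧ (((Td d)^[i] x : ℤ) : ℝ) < 2 * A)).card =
      ∑ i ∈ range (N + 1), ∑ x ∈ M i, 1 / (x : ℝ) := by
    simp only [card_filter, Nat.cast_sum, Nat.cast_ite, Nat.cast_one, Nat.cast_zero, mul_sum]
    rw [sum_comm]
    refine sum_congr rfl fun i _ => ?_
    rw [hM]
    dsimp only
    rw [sum_filter]
    refine sum_congr rfl fun x _ => ?_
    split_ifs <;> simp
  have hMx : ∀ i, ∀ x ∈ M i, (Ul A ≤ (x : ℝ) ∧ (x : ℝ) < Ur A) ∧ Odd x ∧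
      A ≤ (((Td d)^[i] x : ℤ) : ℝ) ∧ (((Td d)^[i] x : ℤ) : ℝ) < 2 * A := by
    intro i x hx
    rw [hM] at hx
    dsimp only at hx
    rw [mem_filter, mem_cls] at hx
    exact ⟨hx.1.1, hx.1.2.1, hx.2⟩
  set l := Real.log (4 / 3) / 2 with hl
  have hl0 : 0 < l := by positivity
  set G : ℕ → Prop := fun i => (1 / 20 - δ) * ℓ ≤ i * l ∧ i * l ≤ (1 / 10 + δ) * ℓ with hG
  set η₁ : ℝ := ε / 20 with hη₁
  have hterm : ∀ i ∈ range (N + 1), ∑ x ∈ M i, 1 / (x : ℝ) ≤
      (if G i then Real.log 2 / 2 + η₁ else 0) + ε / 160 := by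
    intro i hi
    have hiN : i ≤ N := by
      have := mem_range.1 hi
      omega
    by_cases h : G i
    · rw [if_pos h]
      have h1 := good_mass hd hA1 hdA hiN (M i) (fun x hx => (hMx i x hx).1.1) (fun x hx => (hMx i x hx).2.1)
        (fun x hx => (hMx i x hx).2.2)
      rw [hη₁]
      linarith
    · rw [if_neg h, zero_add]
      have h1 := bad_mass hd hA1 hdA hiN (M i) (fun x hx => (hMx i x hx).1.1)
        (fun x hx => (hMx i x hx).2.2) hδ0.le (τ := δ * ℓ / 4)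
        (fun x hx => deviation hd hA1 hdA hiN (hMx i x hx).1.1 (hMx i x hx).1.2 (hMx i x hx).2.2.1
          (hMx i x hx).2.2.2 hℓδ h)
      refine h1.trans (le_trans ?_ c3.le)
      refine mul_le_mul_of_nonneg_left (Real.exp_le_exp.2 ?_) (by norm_num)
      have h2 : (i : ℝ) ≤ ℓ := by
        have h3 : (i : ℝ) ≤ N := Nat.cast_le.2 hiN
        have h4 := Nat.floor_le (show 0 ≤ Real.log A by linarith)
        linarith
      have h3 : (i : ℝ) * (δ ^ 2 / 8) ≤ ℓ * (δ ^ 2 / 8) := mul_le_mul_of_nonneg_right h2 (by positivity)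
      linarith
  refine (le_of_eq hstart).trans ((sum_le_sum hterm).trans ?_)
  rw [sum_add_distrib, sum_const, card_range, nsmul_eq_mul, ← sum_filter, sum_const, nsmul_eq_mul]
  have hcard : (((range (N + 1)).filter fun i => G i).card : ℝ) ≤ (1 / 20 + 2 * δ) * ℓ / l + 1 := by
    have h1 := card_window hl0 (a := (1 / 20 - δ) * ℓ) (b := (1 / 10 + δ) * ℓ)
      (mul_nonneg (by rw [hδ]; linarith) (by linarith))
      (mul_le_mul_of_nonneg_right (by linarith) (by linarith)) (N + 1)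
    rw [show (1 / 10 + δ) * ℓ - (1 / 20 - δ) * ℓ = (1 / 20 + 2 * δ) * ℓ by ring] at h1
    exact h1
  have h1 : (((range (N + 1)).filter fun i => G i).card : ℝ) * (Real.log 2 / 2 + η₁) ≤
      ((1 / 20 + 2 * δ) * ℓ / l + 1) * (Real.log 2 / 2 + η₁) :=
    mul_le_mul_of_nonneg_right hcard (by positivity)
  have h2 : ((N + 1 : ℕ) : ℝ) * (ε / 160) ≤ 2 * ℓ * (ε / 160) := mul_le_mul_of_nonneg_right hNle (by positivity)
  refine (add_le_add h1 h2).trans ?_
  rw [hlen]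
  -- the final inequality
  set K := Real.log 2 / Real.log (4 / 3) with hK
  have hK1 : 1 ≤ K := by
    rw [hK, le_div_iff₀ hq0]
    linarith
  have e1 : (1 / 20 + 2 * δ) * ℓ / l * (Real.log 2 / 2 + η₁) =
      ℓ / 20 * K * ((1 + 40 * δ) * (1 + 2 * η₁ / Real.log 2)) := by
    rw [hl, hK]
    have : Real.log 2 ≠ 0 := by linarith
    field_simp
    ring
  have e2 : (1 + 40 * δ) * (1 + 2 * η₁ / Real.log 2) ≤ 1 + ε / 2 := by
    have h3 : 2 * η₁ / Real.log 2 ≤ ε / 5 := by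
      rw [div_le_iff₀ (by linarith), hη₁]
      nlinarith
    have h4 : 40 * δ = ε / 5 := by rw [hδ]; ring
    rw [h4]
    have h5 : 0 ≤ 2 * η₁ / Real.log 2 := by positivity
    nlinarith
  have h3 : ℓ / 20 * K * ((1 + 40 * δ) * (1 + 2 * η₁ / Real.log 2)) ≤ ℓ / 20 * K * (1 + ε / 2) :=
    mul_le_mul_of_nonneg_left e2 (by positivity)
  have h4 : Real.log 2 / 2 + η₁ ≤ 1 := by
    rw [hη₁]
    linarith
  have h5 : (1 + ε) * (ℓ / 20 * K) ≤ (1 + ε₀) * (ℓ / 20 * K) :=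
    mul_le_mul_of_nonneg_right (by linarith [min_le_left ε₀ 1]) (by positivity)
  have h6 : 80 / 20 ≤ ε * ℓ / 20 * K := by
    have : 0 ≤ ε * ℓ / 20 := by positivity
    nlinarith
  have h7 : ε * ℓ / 20 ≤ ε * ℓ / 20 * K := by
    have : 0 ≤ ε * ℓ / 20 := by positivity
    nlinarith
  have h8 : ((1 / 20 + 2 * δ) * ℓ / l + 1) * (Real.log 2 / 2 + η₁) =
      (1 / 20 + 2 * δ) * ℓ / l * (Real.log 2 / 2 + η₁) + (Real.log 2 / 2 + η₁) := by ring
  rw [h8, e1]
  have h9 : (1 + ε) * (ℓ / 20 * K) = ℓ / 20 * K * (1 + ε / 2) + (ε * ℓ / 20 * K) / 2 := by ring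
  rw [h9] at h5
  have h10 : 2 * ℓ * (ε / 160) = (ε * ℓ / 20) / 4 := by ring
  rw [h10]
  linarith

end Pool.Agent.Q237.PD
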