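import Pool.Agent.Q237.PD.Base

/-! # Project PD (helper74): two distant visits are rare -/

set_option autoImplicit false

namespace Pool.Agent.Q237.PD

open Finset
open Pool.Agent.H499R2.ND Pool.Agent.H320R2.PD Pool.Agent.Y856.PD Pool.Agent.Q74.PD

theorem exp_le {A : ℝ} (hA : 1 ≤ A) {n : ℕ} (hn : n ≤ ⌊Real.log A⌋₊) : Real.exp n ≤ A := by
  have h1 : (n : ℝ) ≤ Real.log A :=
    (Nat.cast_le.2 hn).trans (Nat.floor_le (Real.log_nonneg hA))
  calc Real.exp n ≤ Real.exp (Real.log A) := Real.exp_le_exp.2 h1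
    _ = A := Real.exp_log (by linarith)

theorem pow_le_exp {b : ℝ} (hb : 0 ≤ b) (h : b ≤ Real.exp 1) (n : ℕ) : b ^ n ≤ Real.exp n := by
  calc b ^ n ≤ Real.exp 1 ^ n := pow_le_pow_left₀ hb h n
    _ = Real.exp n := by rw [← Real.exp_nat_mul, mul_one]

theorem two_pow_le {A : ℝ} (hA : 1 ≤ A) {n : ℕ} (hn : n ≤ ⌊Real.log A⌋₊) : (2 : ℝ) ^ n ≤ A :=
  (pow_le_exp (by norm_num) (by have := Real.exp_one_gt_d9; linarith) n).trans (exp_le hA hn)

theorem three_pow_le {A : ℝ} (hA : 1 ≤ A) {n : ℕ} (hn : n ≤ ⌊Real.log A⌋₊) :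
    (3 : ℝ) ^ n ≤ 2 ^ n * √A := by
  have h1 : (9 / 4 : ℝ) ^ n ≤ A :=
    (pow_le_exp (by norm_num) (by have := Real.exp_one_gt_d9; linarith) n).trans (exp_le hA hn)
  have h2 : (3 / 2 : ℝ) ^ n ≤ √A := by
    apply Real.le_sqrt_of_sq_le
    rw [← pow_mul, mul_comm n 2, pow_mul]
    norm_num
    exact h1
  have h3 : (3 : ℝ) ^ n = 2 ^ n * (3 / 2) ^ n := by
    rw [← mul_pow]
    norm_num
  rw [h3]
  exact mul_le_mul_of_nonneg_left h2 (by positivity)

/-- the parameter `κ` -/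
theorem kappa {A : ℝ} (hA : 1 ≤ A) (d : ℤ) {n : ℕ} (hn : n ≤ ⌊Real.log A⌋₊) :
    |(d : ℝ)| * 3 ^ n ≤ |(d : ℝ)| / √A * (2 ^ n * A) := by
  have hs : 0 < √A := Real.sqrt_pos.2 (by linarith)
  have h1 : |(d : ℝ)| / √A * (2 ^ n * A) = |(d : ℝ)| * (2 ^ n * √A) := by
    have h2 : A = √A * √A := (Real.mul_self_sqrt (by linarith)).symm
    calc |(d : ℝ)| / √A * (2 ^ n * A) = |(d : ℝ)| / √A * (2 ^ n * (√A * √A)) := by rw [← h2]
      _ = |(d : ℝ)| * (2 ^ n * √A) := by field_simp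
  rw [h1]
  exact mul_le_mul_of_nonneg_left (three_pow_le hA hn) (abs_nonneg _)

theorem Ul_ge {A : ℝ} (hA : 1 ≤ A) : 2 * A ≤ Ul A := by
  unfold Ul
  have h1 : (1 : ℝ) ≤ 2 * A := by linarith
  calc 2 * A = (2 * A) ^ (1 : ℝ) := (Real.rpow_one _).symm
    _ ≤ (2 * A) ^ (21 / 20 : ℝ) := Real.rpow_le_rpow_of_exponent_le h1 (by norm_num)

/-- product of the weights over the last `j` parities -/
theorem prod_oc (d y : ℤ) (a b : ℝ) (j : ℕ) :
    ∏ s ∈ range j, (if ((Td d)^[s] y) % 2 = 0 then a else a * b) = a ^ j * b ^ oc d y j := by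
  induction j with
  | zero => simp [oc]
  | succ j ih =>
    rw [prod_range_succ, ih, oc]
    split_ifs
    · rw [add_zero]
      ring
    · ring

theorem rho_lt : (1 + √3) / (2 * √2) < 1 := by
  have h2 : 0 < √2 := Real.sqrt_pos.2 (by norm_num)
  rw [div_lt_one (by positivity)]
  have h3 : √3 ^ 2 = 3 := Real.sq_sqrt (by norm_num)
  have h4 : √2 ^ 2 = 2 := Real.sq_sqrt (by norm_num)
  have h5 : √3 < 2 := by
    rw [Real.sqrt_lt' (by norm_num)]
    norm_num
  have h6 : 0 ≤ √3 := Real.sqrt_nonneg _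
  nlinarith

/-- both visits -/
theorem two_visits {d : ℤ} (hd : Odd d) {A : ℝ} (hA : 1 ≤ A) (hdA : |(d : ℝ)| / √A ≤ 1 / 2) {i j : ℕ}
    (hij : i + j ≤ ⌊Real.log A⌋₊) (S : Finset ℤ) (hSU : ∀ x ∈ S, Ul A ≤ (x : ℝ))
    (hS : ∀ x ∈ S, A ≤ (((Td d)^[i] x : ℤ) : ℝ) ∧ (((Td d)^[i] x : ℤ) : ℝ) < 2 * A ∧
      A ≤ (((Td d)^[i + j] x : ℤ) : ℝ)) :
    ∑ x ∈ S, 1 / (x : ℝ) ≤ 8 * ((1 + √3) / (2 * √2)) ^ j := by
  classical
  have hs2 : 0 < √2 := Real.sqrt_pos.2 (by norm_num)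
  have hs3 : 0 < √3 := Real.sqrt_pos.2 (by norm_num)
  have hUl := Ul_ge hA
  have hU : 0 < Ul A := by linarith
  set g : ℕ → ℤ → ℝ := fun s b => if s < i then 1 else if b = 0 then 1 / √2 else 1 / √2 * √3 with hg
  have hg0 : ∀ s b, 0 ≤ g s b := by
    intro s b
    rw [hg]
    dsimp only
    split_ifs <;> positivity
  have hmass := mass_le hd hA (Nat.le_add_right i j) (kappa hA d ((Nat.le_add_right i j).trans hij)) hdA hU S
    hSU (fun x hx => ⟨(hS x hx).1, (hS x hx).2.1⟩) g hg0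
  -- the product
  have hprod : ∏ s ∈ range (i + j), (g s 0 + g s 1) = 2 ^ i * ((1 + √3) / √2) ^ j := by
    rw [prod_range_add]
    congr 1
    · rw [prod_congr rfl (g := fun _ => (2 : ℝ)), prod_const, card_range]
      intro s hs
      rw [hg]
      dsimp only
      rw [if_pos (mem_range.1 hs), if_pos (mem_range.1 hs)]
      norm_num
    · rw [prod_congr rfl (g := fun _ => (1 + √3) / √2), prod_const, card_range]
      intro s _
      rw [hg]
      dsimp only
      have hn : ¬ i + s < i := by omega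
      simp only [if_neg hn, if_true, one_ne_zero, if_false]
      ring
  -- the weights are at least 1/2
  have hW : ∀ x ∈ S, 1 ≤ 2 * W d g (i + j) x := by
    intro x hx
    obtain ⟨h1, h2, h3⟩ := hS x hx
    set y := (Td d)^[i] x with hy
    have hWx : W d g (i + j) x = (1 / √2) ^ j * √3 ^ oc d y j := by
      unfold W
      rw [prod_range_add, ← prod_oc]
      have e1 : ∏ s ∈ range i, g s (((Td d)^[s] x) % 2) = 1 := by
        refine prod_eq_one fun s hs => ?_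
        rw [hg]
        dsimp only
        rw [if_pos (mem_range.1 hs)]
      rw [e1, one_mul]
      refine prod_congr rfl fun s _ => ?_
      rw [hg]
      dsimp only
      rw [if_neg (by omega), hy, ← Function.iterate_add_apply, add_comm s i]
    rw [hWx]
    have h4 : (Td d)^[i + j] x = (Td d)^[j] y := by
      rw [hy, ← Function.iterate_add_apply, add_comm j i]
    rw [h4] at h3
    have h5 : (2 : ℝ) ^ j * (((Td d)^[j] y : ℤ) : ℝ) = 3 ^ oc d y j * y + d * cc d y j := by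
      have := ident hd y j
      exact_mod_cast this
    have h6 : (cc d y j : ℝ) ≤ 3 ^ j := by
      have h7 := cc_le d y j
      have h8 : 0 < 2 ^ j := by positivity
      have h9 : cc d y j ≤ 3 ^ j := by omega
      exact_mod_cast h9
    have h7 : (d : ℝ) * cc d y j ≤ 1 / 2 * (2 ^ j * A) := by
      calc (d : ℝ) * cc d y j ≤ |(d : ℝ)| * cc d y j :=
            mul_le_mul_of_nonneg_right (le_abs_self _) (Nat.cast_nonneg _)
        _ ≤ |(d : ℝ)| * 3 ^ j := mul_le_mul_of_nonneg_left h6 (abs_nonneg _)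
        _ ≤ |(d : ℝ)| / √A * (2 ^ j * A) := kappa hA d ((Nat.le_add_left j i).trans hij)
        _ ≤ 1 / 2 * (2 ^ j * A) := mul_le_mul_of_nonneg_right hdA (by positivity)
    have h8 : (2 : ℝ) ^ j * A ≤ 2 ^ j * (((Td d)^[j] y : ℤ) : ℝ) :=
      mul_le_mul_of_nonneg_left h3 (by positivity)
    have h9 : (3 : ℝ) ^ oc d y j * y ≤ 3 ^ oc d y j * (2 * A) :=
      mul_le_mul_of_nonneg_left h2.le (by positivity)
    have h10 : (2 : ℝ) ^ j ≤ 4 * 3 ^ oc d y j := by
      have hA0 : 0 < A := by linarith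
      have h11 : (2 : ℝ) ^ j * A ≤ 4 * 3 ^ oc d y j * A := by linarith
      exact le_of_mul_le_mul_right h11 hA0
    have h11 : √2 ^ j ≤ 2 * √3 ^ oc d y j := by
      refine le_of_sq_le_sq ?_ (by positivity)
      have e1 : (√2 ^ j) ^ 2 = 2 ^ j := by
        rw [← pow_mul, mul_comm, pow_mul, Real.sq_sqrt (by norm_num)]
      have e2 : (2 * √3 ^ oc d y j) ^ 2 = 4 * 3 ^ oc d y j := by
        rw [mul_pow, ← pow_mul, mul_comm (oc d y j) 2, pow_mul √3, Real.sq_sqrt (by norm_num)]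
        norm_num
      rw [e1, e2]
      exact h10
    have h12 : (1 / √2) ^ j * √2 ^ j = 1 := by
      rw [← mul_pow, one_div, inv_mul_cancel₀ hs2.ne', one_pow]
    have h13 : (0 : ℝ) ≤ (1 / √2) ^ j := by positivity
    nlinarith [mul_le_mul_of_nonneg_left h11 h13]
  have h2n : (2 : ℝ) ^ (i + j) ≤ Ul A := by
    have := two_pow_le hA hij
    linarith
  have hfac : 1 / Ul A + (Real.log 2 + 4 * (|(d : ℝ)| / √A)) / 2 ^ (i + j) ≤ 4 / 2 ^ (i + j) := by
    have h1 : 1 / Ul A ≤ 1 / 2 ^ (i + j) := one_div_le_one_div_of_le (by positivity) h2n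
    have h2 : Real.log 2 + 4 * (|(d : ℝ)| / √A) ≤ 3 := by
      have := Real.log_two_lt_d9
      linarith
    have h3 : (Real.log 2 + 4 * (|(d : ℝ)| / √A)) / 2 ^ (i + j) ≤ 3 / 2 ^ (i + j) :=
      div_le_div_of_nonneg_right h2 (by positivity)
    have h4 : (4 : ℝ) / 2 ^ (i + j) = 1 / 2 ^ (i + j) + 3 / 2 ^ (i + j) := by ring
    linarith
  calc ∑ x ∈ S, 1 / (x : ℝ) ≤ ∑ x ∈ S, 2 * (1 / (x : ℝ) * W d g (i + j) x) := by
        refine sum_le_sum fun x hx => ?_
        have hx0 : 0 < (x : ℝ) := lt_of_lt_of_le hU (hSU x hx)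
        have h1 : 0 ≤ 1 / (x : ℝ) := by positivity
        nlinarith [mul_le_mul_of_nonneg_left (hW x hx) h1]
    _ = 2 * ∑ x ∈ S, 1 / (x : ℝ) * W d g (i + j) x := by rw [mul_sum]
    _ ≤ 2 * (4 / 2 ^ (i + j) * (2 ^ i * ((1 + √3) / √2) ^ j)) := by
        rw [hprod] at hmass
        refine mul_le_mul_of_nonneg_left (hmass.trans ?_) (by norm_num)
        exact mul_le_mul_of_nonneg_right hfac (by positivity)
    _ = 8 * ((1 + √3) / (2 * √2)) ^ j := by
        have : (1 + √3) / (2 * √2) = (1 + √3) / √2 / 2 := by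
          field_simp
        rw [this, div_pow ((1 + √3) / √2), pow_add]
        field_simp
        norm_num

/-- **S_Prs.** -/
theorem prs : S_Prs := by
  classical
  intro d hd
  have hs2 : 0 < √2 := Real.sqrt_pos.2 (by norm_num)
  have hs3 : 0 < √3 := Real.sqrt_pos.2 (by norm_num)
  set ρ : ℝ := (1 + √3) / (2 * √2) with hρ
  have hρ0 : 0 < ρ := by positivity
  have hρ1 : ρ < 1 := rho_lt
  refine ⟨16 / (1 - ρ), -Real.log ρ, max (Real.exp 1) (4 * (d : ℝ) ^ 2), ?_, ?_, ?_⟩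
  · have := Real.log_neg hρ0 hρ1
    linarith
  · have : 0 < 1 - ρ := by linarith
    positivity
  intro A hA L
  have hAe : Real.exp 1 ≤ A := (le_max_left _ _).trans hA
  have hA1 : 1 ≤ A := by
    have := Real.exp_one_gt_d9
    linarith
  have hlogA : 1 ≤ Real.log A := by
    rw [Real.le_log_iff_exp_le (by linarith)]
    exact hAe
  have hdA : |(d : ℝ)| / √A ≤ 1 / 2 := by
    have hs : 0 < √A := Real.sqrt_pos.2 (by linarith)
    rw [div_le_iff₀ hs]
    have h1 : 4 * (d : ℝ) ^ 2 ≤ A := (le_max_right _ _).trans hA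
    have h2 : 2 * |(d : ℝ)| ≤ √A := by
      apply Real.le_sqrt_of_sq_le
      rw [mul_pow, sq_abs]
      linarith
    linarith
  set N := ⌊Real.log A⌋₊ with hN
  set P : ℤ → ℕ × ℕ → Prop := fun x p => p.1 + p.2 ≤ N ∧ L ≤ p.2 ∧ A ≤ (((Td d)^[p.1] x : ℤ) : ℝ) ∧
    (((Td d)^[p.1] x : ℤ) : ℝ) < 2 * A ∧ A ≤ (((Td d)^[p.1 + p.2] x : ℤ) : ℝ) ∧
    (((Td d)^[p.1 + p.2] x : ℤ) : ℝ) < 2 * A with hP
  have hstart : ∑ x ∈ cls Set.univ (Ul A) (Ur A) 0 1 0, 1 / (x : ℝ) *
      (((range (N + 1)) ×ˢ (range (N + 1))).filter (fun p : ℕ × ℕ => P x p)).card =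
      ∑ p ∈ (range (N + 1)) ×ˢ (range (N + 1)),
        ∑ x ∈ (cls Set.univ (Ul A) (Ur A) 0 1 0).filter (fun x => P x p), 1 / (x : ℝ) := by
    simp only [card_filter, Nat.cast_sum, Nat.cast_ite, Nat.cast_one, Nat.cast_zero, mul_sum]
    rw [sum_comm]
    refine sum_congr rfl fun p _ => ?_
    rw [sum_filter]
    refine sum_congr rfl fun x _ => ?_
    split_ifs <;> simp
  have hterm : ∀ p ∈ (range (N + 1)) ×ˢ (range (N + 1)),
      ∑ x ∈ (cls Set.univ (Ul A) (Ur A) 0 1 0).filter (fun x => P x p), 1 / (x : ℝ) ≤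
        if L ≤ p.2 then 8 * ρ ^ p.2 else 0 := by
    rintro ⟨i, j⟩ _
    dsimp only
    by_cases h : i + j ≤ N ∧ L ≤ j
    · rw [if_pos h.2]
      refine two_visits hd hA1 hdA h.1 _ (fun x hx => ?_) (fun x hx => ?_)
      · rw [mem_filter, mem_cls] at hx
        exact hx.1.1.1
      · rw [mem_filter] at hx
        obtain ⟨-, -, -, h1, h2, h3, -⟩ := hx
        exact ⟨h1, h2, h3⟩
    · have he : (cls Set.univ (Ul A) (Ur A) 0 1 0).filter (fun x => P x (i, j)) = ∅ := by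
        rw [filter_eq_empty_iff]
        intro x _ hx
        exact h ⟨hx.1, hx.2.1⟩
      rw [he, sum_empty]
      split_ifs
      · positivity
      · exact le_rfl
  have hgeom : ∑ j ∈ range (N + 1), (if L ≤ j then 8 * ρ ^ j else 0) ≤ 8 * ρ ^ L / (1 - ρ) := by
    rw [← sum_filter]
    have hsub : (range (N + 1)).filter (fun j => L ≤ j) ⊆ (range (N + 1)).image (fun k => L + k) := by
      intro j hj
      rw [mem_filter, mem_range] at hj
      rw [mem_image]
      exact ⟨j - L, mem_range.2 (by omega), by omega⟩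
    calc ∑ j ∈ (range (N + 1)).filter (fun j => L ≤ j), 8 * ρ ^ j
        ≤ ∑ j ∈ (range (N + 1)).image (fun k => L + k), 8 * ρ ^ j :=
          sum_le_sum_of_subset_of_nonneg hsub fun _ _ _ => by positivity
      _ = ∑ k ∈ range (N + 1), 8 * ρ ^ (L + k) := sum_image (by intro a _ b _ h; simpa using h)
      _ = 8 * ρ ^ L * ∑ k ∈ range (N + 1), ρ ^ k := by
          rw [mul_sum]
          refine sum_congr rfl fun k _ => ?_
          rw [pow_add]
          ring
      _ ≤ 8 * ρ ^ L * (1 / (1 - ρ)) := by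
          refine mul_le_mul_of_nonneg_left ?_ (by positivity)
          have h1 : 0 < 1 - ρ := by linarith
          rw [le_div_iff₀ h1]
          have h2 := geom_sum_mul_neg ρ (N + 1)
          rw [h2]
          have : 0 ≤ ρ ^ (N + 1) := by positivity
          linarith
      _ = 8 * ρ ^ L / (1 - ρ) := by ring
  have hexp : Real.exp (-(-Real.log ρ) * L) = ρ ^ L := by
    rw [neg_neg, mul_comm, Real.exp_nat_mul, Real.exp_log hρ0]
  rw [hexp]
  refine (le_of_eq hstart).trans ((sum_le_sum hterm).trans ?_)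
  have hsum : ∑ p ∈ (range (N + 1)) ×ˢ (range (N + 1)), (if L ≤ p.2 then 8 * ρ ^ p.2 else 0) =
      ((N + 1 : ℕ) : ℝ) * ∑ j ∈ range (N + 1), (if L ≤ j then 8 * ρ ^ j else 0) := by
    rw [sum_product, ← nsmul_eq_mul, ← card_range (N + 1), ← sum_const, card_range]
  rw [hsum]
  have hNle : ((N + 1 : ℕ) : ℝ) ≤ 2 * Real.log A := by
    have := Nat.floor_le (show 0 ≤ Real.log A by linarith)
    push_cast
    linarith
  have h1ρ : 0 < 1 - ρ := by linarith
  have hAc : 0 ≤ A ^ (-(-Real.log ρ)) := Real.rpow_nonneg (by linarith) _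
  calc ((N + 1 : ℕ) : ℝ) * ∑ j ∈ range (N + 1), (if L ≤ j then 8 * ρ ^ j else 0)
      ≤ 2 * Real.log A * (8 * ρ ^ L / (1 - ρ)) := by
        refine mul_le_mul hNle hgeom ?_ (by linarith)
        exact sum_nonneg fun j _ => by split_ifs <;> positivity
    _ = 16 / (1 - ρ) * ρ ^ L * Real.log A := by ring
    _ ≤ 16 / (1 - ρ) * (ρ ^ L + A ^ (-(-Real.log ρ))) * Real.log A := by
        refine mul_le_mul_of_nonneg_right (mul_le_mul_of_nonneg_left (by linarith) (by positivity)) (by linarith)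

end Pool.Agent.Q237.PD
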